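import Pool.Agent.J4H1.LH.Off4
import Pool.Agent.W169.HF.Maj

/-!
# Project LH: few zeros of the heat flow give the size (abstract part)
-/

set_option autoImplicit false

open Complex MeasureTheory Filter Topology Set
open scoped ComplexConjugate

namespace Pool.Agent.J4H1.LH

open Pool.Agent.W169.HF (UD Pf Cnt phx Slow heat S_HLO S_HUP S_INVX S_TCZ nsq)

theorem few_size (hT : S_TCZ) (hU : S_HUP) (hL : S_HLO) (hI : S_INVX) (K ϑ0 g X κ : ℝ) (hK : 1 ≤ K)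
    (hϑ1 : 1 / 2 ≤ ϑ0) (hϑ2 : ϑ0 ≤ 2) (hg : 0 < g) (hX : 1 ≤ X) (hκ : 0 < κ) :
    ∃ κ1 R ℓ0 : ℝ, 0 < κ1 ∧ 1 ≤ R ∧ ∀ (ℓ G t : ℝ) (f : ℂ → ℂ), ℓ0 ≤ ℓ → UD K ϑ0 ℓ G f → 0 < t →
      g ≤ 2 * t * ℓ → 2 * t * ℓ ≤ X →
      Cnt (heat t f) {z : ℂ | κ1 ≤ z.re ∧ z.re ≤ R ∧ |z.im| ≤ R} (κ1 * ℓ) →
      ∀ r : ℝ, 0 ≤ r → r ≤ 1 → ‖f r‖ ≤ G * Real.exp (ℓ * phx (2 * t * ℓ) r + κ * ℓ) := by
  obtain ⟨κa, Ra, ℓa, hκa, hκa1, hRa, HA⟩ := hI K ϑ0 g X κ hK hϑ1 hϑ2 hg hX hκ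
  obtain ⟨κ1, R, hκ1, hR, HT⟩ := hT 3 (ϑ0 + 1 / 2) κa κa (max Ra 2) (by norm_num) (by linarith) (by linarith)
    hκa hκa1 hκa (le_trans hRa (le_max_left _ _))
  have hR2 : 2 ≤ R := (le_max_right _ _).trans hR
  obtain ⟨ℓe, HL⟩ := hL K ϑ0 g X κ1 R hK hϑ1 hϑ2 hg hX hκ1 (by linarith)
  obtain ⟨K', ℓh, hK', HU⟩ := hU K ϑ0 X hK hϑ1 hϑ2 hX
  refine ⟨κ1, R, max ℓa (max ℓe (max ℓh (K' * (1 + (R ^ 2 + R ^ 2))))), hκ1, by linarith, ?_⟩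
  intro ℓ G t f hℓ hf ht hg2 hX2 hC
  have hℓa : ℓa ≤ ℓ := le_trans (le_max_left _ _) hℓ
  have hℓ' := le_trans (le_max_right _ _) hℓ
  have hℓe : ℓe ≤ ℓ := le_trans (le_max_left _ _) hℓ'
  have hℓ'' := le_trans (le_max_right _ _) hℓ'
  have hℓh : ℓh ≤ ℓ := le_trans (le_max_left _ _) hℓ''
  have hℓk := le_trans (le_max_right _ _) hℓ''
  have hℓ0 : 0 < ℓ := lt_of_lt_of_le (by positivity) hℓk
  have hG := hf.hG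
  refine HA ℓ G t f hℓa hf ht hg2 hX2 ?_
  have h1 := HT ℓ (G * Real.exp (t * ℓ ^ 2)) (heat t f) hℓ0 (by positivity) (heat_diff hf.slow t) ?_ ?_ hC
  · intro u hu1 hu2 hu3
    exact h1 u hu1 (hu2.trans (le_max_right _ _)) (hu3.trans (le_max_left _ _))
  · intro u hu1 hu2 hu3
    refine (HU ℓ G t f hℓh hf ht hX2 u).trans ?_
    apply mul_le_mul_of_nonneg_left _ (by positivity)
    apply Real.exp_le_exp.2
    have h2 : ‖u‖ ^ 2 ≤ R ^ 2 + R ^ 2 := nsq (by rw [abs_of_nonneg hu1]; exact hu2) hu3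
    have h3 : K' * (1 + ‖u‖ ^ 2) ≤ K' * (1 + (R ^ 2 + R ^ 2)) :=
      mul_le_mul_of_nonneg_left (by linarith) (by linarith)
    have h4 : max |u.re| ϑ0 ≤ u.re + 2 := by
      rw [abs_of_nonneg hu1]
      exact max_le (by linarith) (by linarith)
    have h5 := mul_le_mul_of_nonneg_left h4 hℓ0.le
    linarith
  · intro u hu1 hu2 hu3
    exact HL ℓ G t f hℓe hf ht hg2 hX2 u hu1 hu2 hu3

end Pool.Agent.J4H1.LH
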