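import Pool.Agent.J4H1.LH.Off5

/-!
# Project LH, S_OFF, part 6: the theorem
-/

set_option autoImplicit false

open Complex MeasureTheory Filter Topology Set
open scoped ComplexConjugate

namespace Pool.Agent.J4H1.LH

open Pool.Agent.W169.HF (UD Pf Cnt phx Slow heat S_HLO S_HPX)

theorem off_of (h1 : S_HPX) (h2 : S_HLO) : S_OFF := by
  intro K ϑ0 x g X ε0 hK hϑ1 hϑ2 hx hg hX hε0
  by_cases hxX : x ≤ X
  swap
  · refine ⟨1, 1, 0, one_pos, le_rfl, ?_⟩
    intro ℓ G t f _ _ _ _ h3 h4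
    exfalso
    linarith
  obtain ⟨Y, hY⟩ : ∃ Y : ℝ, Y = X + 3 := ⟨_, rfl⟩
  obtain ⟨δ, hδ⟩ : ∃ δ : ℝ, δ = min (g / 3) (min x 1) := ⟨_, rfl⟩
  have hδ0 : 0 < δ := by rw [hδ]; exact lt_min (by positivity) (lt_min hx one_pos)
  have hδg : 3 * δ ≤ g := by
    have : δ ≤ g / 3 := by rw [hδ]; exact min_le_left _ _
    linarith
  have hδx : δ ≤ x := by rw [hδ]; exact (min_le_right _ _).trans (min_le_left _ _)
  have hδ1 : δ ≤ 1 := by rw [hδ]; exact (min_le_right _ _).trans (min_le_right _ _)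
  obtain ⟨κ0, ℓa, hκ0, hoff⟩ := off_count Y δ ε0 (by linarith) hδ0 hδ1 hε0
  obtain ⟨κ', hκ'⟩ : ∃ κ' : ℝ, κ' = min κ0 (g / 4) := ⟨_, rfl⟩
  have hκ'0 : 0 < κ' := by rw [hκ']; exact lt_min hκ0 (by positivity)
  have hκ'1 : κ' ≤ κ0 := by rw [hκ']; exact min_le_left _ _
  have hκ'g : κ' ≤ g / 4 := by rw [hκ']; exact min_le_right _ _
  obtain ⟨κ1, R, ℓb, hκ1, hR, hb⟩ := h1 K ϑ0 x X κ' (2 * Y + 3) hK hϑ1 hϑ2 hx hxX hX hκ'0 (by linarith)
  obtain ⟨κ2, R', ℓc, hκ2, hR', hc⟩ := Ah_up K ϑ0 x g X κ' δ (2 * Y + 3) hK hϑ2 hx hg hX hκ'0 hδ0.le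
    hδ1 hδg hδx (by linarith)
  obtain ⟨C, ℓd, hC, hd⟩ := Ah_neg K ϑ0 X Y (Y + 2) hK (by linarith) hX (by linarith) (by linarith)
  obtain ⟨ℓe, he⟩ := h2 K ϑ0 g X (κ' / 2) (2 * Y + 3) hK hϑ1 hϑ2 hg hX (by positivity) (by linarith)
  refine ⟨min κ1 κ2, max R R', max ℓa (max ℓb (max ℓc (max ℓd (max ℓe
    (1 + 2 * C / κ' + 2 / κ' + 32 / κ' ^ 2))))), lt_min hκ1 hκ2, le_trans (by linarith) (le_max_left _ _), ?_⟩
  intro ℓ G t f hℓ hf hb0 ht htx htX
  have hℓa : ℓa ≤ ℓ := le_trans (le_max_left _ _) hℓ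
  have hℓ' := le_trans (le_max_right _ _) hℓ
  have hℓb : ℓb ≤ ℓ := le_trans (le_max_left _ _) hℓ'
  have hℓ'' := le_trans (le_max_right _ _) hℓ'
  have hℓc : ℓc ≤ ℓ := le_trans (le_max_left _ _) hℓ''
  have hℓ3 := le_trans (le_max_right _ _) hℓ''
  have hℓd : ℓd ≤ ℓ := le_trans (le_max_left _ _) hℓ3
  have hℓ4 := le_trans (le_max_right _ _) hℓ3
  have hℓe : ℓe ≤ ℓ := le_trans (le_max_left _ _) hℓ4
  have hℓf := le_trans (le_max_right _ _) hℓ4
  have q1 : 0 ≤ 2 * C / κ' := by positivity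
  have q2 : 0 ≤ 2 / κ' := by positivity
  have q3 : 0 ≤ 32 / κ' ^ 2 := by positivity
  have hℓ0 : 0 < ℓ := by linarith
  have hℓC : 2 * C ≤ κ' * ℓ := by
    have : 2 * C / κ' ≤ ℓ := by linarith
    rw [div_le_iff₀ hκ'0] at this
    linarith
  have hℓ2 : 2 ≤ κ' * ℓ := by
    have : 2 / κ' ≤ ℓ := by linarith
    rw [div_le_iff₀ hκ'0] at this
    linarith
  have hℓκ : 32 ≤ κ' ^ 2 * ℓ := by
    have : 32 / κ' ^ 2 ≤ ℓ := by linarith
    rw [div_le_iff₀ (by positivity)] at this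
    linarith
  have hG := hf.hG
  obtain ⟨ε, hε, hfe⟩ := hf.fe
  obtain ⟨H, hH⟩ : ∃ H : ℝ, H = G * Real.exp (t * ℓ ^ 2) := ⟨_, rfl⟩
  have hH0 : 0 < H := by rw [hH]; positivity
  -- the size of `f` for the two applications
  have hm : ∀ (κ3 R3 : ℝ), min κ1 κ2 ≤ κ3 → R3 ≤ max R R' → ∀ u : ℂ, |u.re| ≤ R3 → |u.im| ≤ R3 →
      ‖f u‖ ≤ G * Real.exp (ℓ * phx x |u.re| + κ3 * ℓ) := by
    intro κ3 R3 h3 h4 u hu1 hu2
    refine (hb0 u (hu1.trans h4) (hu2.trans h4)).trans ?_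
    apply mul_le_mul_of_nonneg_left _ hG.le
    apply Real.exp_le_exp.2
    have := mul_le_mul_of_nonneg_right h3 hℓ0.le
    linarith
  have hg2 : g ≤ 2 * t * ℓ := by linarith
  have hup := hb ℓ G t f hℓb hf (hm κ1 R (min_le_left _ _) (le_max_left _ _)) ht (by linarith) htX
  have hAup := hc ℓ G t f hℓc hf (hm κ2 R' (min_le_right _ _) (le_max_right _ _)) ht htx htX
  have hAneg := hd ℓ G t f hℓd hf ht htX
  have hlo := he ℓ G t f hℓe hf ht hg2 htX
  have hκκ : κ' * ℓ ≤ κ0 * ℓ := mul_le_mul_of_nonneg_right hκ'1 hℓ0.le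
  apply hoff (Ah t f) (heat t f) ε ℓ H (Ah_diff hf.slow t) (heat_diff hf.slow t) hε hℓa hH0
  · intro s
    rw [heat_split hf.slow hfe]
    congr 4
    simp
  · intro u hu1 hu2 hu3
    refine (hAup u hu1 (by linarith) hu3).trans ?_
    rw [hH]
    apply mul_le_mul_of_nonneg_left _ (by positivity)
    apply Real.exp_le_exp.2
    linarith
  · intro y hy
    have e1 : (-(Y : ℂ) + y * I) = -conj ((Y : ℂ) + y * I) := by
      rw [map_add, map_mul, Complex.conj_ofReal, Complex.conj_ofReal, Complex.conj_I]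
      ring
    have h3 := hAneg y hy
    rw [e1] at h3
    have hre : ((Y : ℂ) + y * I).re = Y := by simp
    have him : ((Y : ℂ) + y * I).im = y := by simp
    have h4 := (hlo ((Y : ℂ) + y * I) (by rw [hre]; linarith) (by rw [hre]; linarith)
      (by rw [him]; linarith)).1
    rw [hre, ← hH] at h4
    have h5 := heat_split hf.slow hfe t ((Y : ℂ) + y * I)
    have h6 : ‖heat t f ((Y : ℂ) + y * I)‖ ≤ ‖Ah t f ((Y : ℂ) + y * I)‖ +
        ‖Ah t f (-conj ((Y : ℂ) + y * I))‖ := by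
      rw [h5]
      refine (norm_add_le _ _).trans ?_
      rw [norm_mul, hε, one_mul, Complex.norm_conj]
    -- numerics
    have h7 : G * Real.exp (ℓ * Y + C) * Real.sqrt ℓ + H * Real.exp (ℓ * Y - κ0 * ℓ) ≤
        H * Real.exp (ℓ * Y - κ' / 2 * ℓ) := by
      have hsl := sqrt_small hκ'0 hℓ0 hℓκ
      have h8 : G * Real.exp (ℓ * Y + C) * Real.sqrt ℓ ≤ G * Real.exp (ℓ * Y) * Real.exp (κ' * ℓ) := by
        rw [mul_assoc G, mul_assoc G]
        apply mul_le_mul_of_nonneg_left _ hG.le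
        calc Real.exp (ℓ * Y + C) * Real.sqrt ℓ ≤ Real.exp (ℓ * Y + C) * Real.exp (κ' * ℓ / 4) :=
              mul_le_mul_of_nonneg_left hsl (Real.exp_pos _).le
          _ = Real.exp (ℓ * Y + C + κ' * ℓ / 4) := by rw [← Real.exp_add]
          _ ≤ Real.exp (ℓ * Y + κ' * ℓ) := Real.exp_le_exp.2 (by linarith)
          _ = _ := Real.exp_add _ _
      have htg : 2 * (κ' * ℓ) ≤ t * ℓ ^ 2 := by
        have h9 : g * ℓ ≤ 2 * t * ℓ * ℓ := mul_le_mul_of_nonneg_right hg2 hℓ0.le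
        have h10 := mul_le_mul_of_nonneg_right hκ'g hℓ0.le
        nlinarith
      -- in terms of `E = exp (κ' ℓ / 2)`
      obtain ⟨E, hE⟩ : ∃ E : ℝ, E = Real.exp (κ' * ℓ / 2) := ⟨_, rfl⟩
      have hE2 : 2 ≤ E := by
        rw [hE]
        have := Real.add_one_le_exp (κ' * ℓ / 2)
        linarith
      have hE0 : 0 < E := by linarith
      have e2 : Real.exp (κ' * ℓ) = E ^ 2 := by
        rw [hE, ← Real.exp_nat_mul]; congr 1; push_cast; ring
      have e3 : Real.exp (ℓ * Y - κ' / 2 * ℓ) = Real.exp (ℓ * Y) / E := by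
        rw [hE, ← Real.exp_sub]; congr 1; ring
      have e4 : Real.exp (ℓ * Y - κ0 * ℓ) ≤ Real.exp (ℓ * Y) / E ^ 2 := by
        rw [← e2, ← Real.exp_sub]
        apply Real.exp_le_exp.2
        linarith
      have e5 : E ^ 4 ≤ Real.exp (t * ℓ ^ 2) := by
        have : E ^ 4 = Real.exp (2 * (κ' * ℓ)) := by
          rw [hE, ← Real.exp_nat_mul]; congr 1; push_cast; ring
        rw [this]
        exact Real.exp_le_exp.2 htg
      obtain ⟨W, hW⟩ : ∃ W : ℝ, W = G * Real.exp (ℓ * Y) := ⟨_, rfl⟩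
      have hW0 : 0 < W := by rw [hW]; positivity
      have h10 : W * E ^ 4 ≤ H * Real.exp (ℓ * Y) := by
        rw [hW, hH]
        have := mul_le_mul_of_nonneg_left e5 (by positivity : 0 ≤ G * Real.exp (ℓ * Y))
        linarith
      obtain ⟨V, hV⟩ : ∃ V : ℝ, V = H * Real.exp (ℓ * Y) := ⟨_, rfl⟩
      rw [e2, ← hW] at h8
      rw [← hV] at h10
      have hV0 : 0 < V := by rw [hV]; positivity
      have h11 : H * Real.exp (ℓ * Y - κ0 * ℓ) ≤ V / E ^ 2 := by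
        have := mul_le_mul_of_nonneg_left e4 hH0.le
        rw [hV, mul_div_assoc]
        exact this
      have h12 : H * Real.exp (ℓ * Y - κ' / 2 * ℓ) = V / E := by rw [e3, hV, mul_div_assoc]
      rw [h12]
      have h13 : W * E ^ 2 ≤ V / E ^ 2 := by
        rw [le_div_iff₀ (by positivity)]
        have : W * E ^ 2 * E ^ 2 = W * E ^ 4 := by ring
        rw [this]
        exact h10
      have h14 : 2 * (V / E ^ 2) ≤ V / E := by
        have : 2 * (V / E ^ 2) = V * 2 / E ^ 2 := by ring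
        rw [this, div_le_div_iff₀ (by positivity) hE0]
        have : V * 2 * E ≤ V * E * E := by
          have := mul_le_mul_of_nonneg_left hE2 (by positivity : 0 ≤ V * E)
          linarith
        nlinarith
      linarith
    linarith
  · intro u hu1 hu2
    refine (hup u (by linarith) (by linarith)).trans ?_
    rw [hH]
    apply mul_le_mul_of_nonneg_left _ (by positivity)
    apply Real.exp_le_exp.2
    linarith
  · have h4 := (hlo (Y : ℂ) (by rw [Complex.ofReal_re]; linarith) (by rw [Complex.ofReal_re]; linarith)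
      (by rw [Complex.ofReal_im, abs_zero]; linarith)).1
    rw [Complex.ofReal_re, ← hH] at h4
    refine le_trans ?_ h4
    apply mul_le_mul_of_nonneg_left _ hH0.le
    apply Real.exp_le_exp.2
    linarith [mul_pos hκ'0 hℓ0]

end Pool.Agent.J4H1.LH
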