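import Pool.Agent.W169.HF.DefsD
import Pool.Agent.J4H34.HF.H9

/-!
# Project LH: growth on the critical line and the zeros of the de Bruijn-Newman flow (statements)
-/

set_option autoImplicit false

open Complex MeasureTheory Filter Topology Set
open scoped ComplexConjugate

namespace Pool.Agent.J4H1.LH

open Pool.Agent.W169.HF (UD Pf Cnt phx)
open Pool.Agent.J4H34.HF (DR Xi cond)

/-- the completed L-function seen from the height `T` -/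
noncomputable def fT (N : ℝ) (Λ : ℂ → ℂ) (T : ℝ) (u : ℂ) : ℂ := Xi N Λ (1 / 2 + T * I + u)

/-- the gamma factor seen from the height `T` -/
noncomputable def gT {m : ℕ} (N : ℝ) (μ : Fin m → ℂ) (T : ℝ) (u : ℂ) : ℂ :=
  _root_.H353.E.gaf N μ (1 / 2 + T * I + u)

/-- half the logarithm of the conductor at height `T` -/
noncomputable def lT {m : ℕ} (N : ℝ) (μ : Fin m → ℂ) (T : ℝ) : ℝ := Real.log (cond N μ T) / 2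

/-- the normalisation at height `T` -/
noncomputable def GT {m : ℕ} (N : ℝ) (μ : Fin m → ℂ) (T : ℝ) : ℝ :=
  ‖gT N μ T 2‖ * Real.exp (-(2 * lT N μ T))

/-- AUT: automorphic L-functions satisfy the abstract data -/
def S_AUT : Prop := ∀ (m : ℕ) (K : ℝ), 1 ≤ m → 0 ≤ K → ∃ (K1 : ℝ) (K2 : ℝ → ℝ), 1 ≤ K1 ∧
  -- the data, and the gamma factor
  (∀ (N : ℝ) (μ : Fin m → ℂ) (α : Fin m → ℕ → ℂ) (ε : ℂ) (Λ : ℂ → ℂ), DR K N μ α ε Λ → ∀ T : ℝ,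
    UD K1 (3 / 2) (lT N μ T) (GT N μ T) (fT N Λ T) ∧
    (∀ u : ℂ, 0 ≤ u.re → ‖(gT N μ T u)⁻¹‖ ≤
      (GT N μ T)⁻¹ * Real.exp (-(lT N μ T * u.re) + K1 * (1 + ‖u‖ ^ 2))) ∧
    (∀ ρ : ℝ, 0 < ρ → ∀ u : ℂ, ρ ≤ u.re → gT N μ T u ≠ 0 ∧
      ‖gT N μ T u‖ ≤ GT N μ T * Real.exp (lT N μ T * u.re + K2 ρ * (1 + ‖u‖ ^ 2)))) ∧
  -- the profile to the right of the line `Re s = 1`
  (∀ κ η R : ℝ, 0 < κ → 0 < η → η ≤ 1 → 1 ≤ R → ∃ ℓ0 : ℝ,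
    ∀ (N : ℝ) (μ : Fin m → ℂ) (α : Fin m → ℕ → ℂ) (ε : ℂ) (Λ : ℂ → ℂ), DR K N μ α ε Λ → ∀ T : ℝ,
      ℓ0 ≤ lT N μ T → Pf κ (1 / 2 + η) R (lT N μ T) (GT N μ T) (fT N Λ T))

/-- OFF: few zeros of the heat flow off the line, if the size is at most that of an earlier time -/
def S_OFF : Prop := ∀ K ϑ0 x g X ε : ℝ, 1 ≤ K → 1 / 2 ≤ ϑ0 → ϑ0 ≤ 2 → 0 < x → 0 < g → 1 ≤ X →
  0 < ε → ∃ κ R ℓ0 : ℝ, 0 < κ ∧ 1 ≤ R ∧ ∀ (ℓ G t : ℝ) (f : ℂ → ℂ), ℓ0 ≤ ℓ → UD K ϑ0 ℓ G f →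
    (∀ u : ℂ, |u.re| ≤ R → |u.im| ≤ R → ‖f u‖ ≤ G * Real.exp (ℓ * phx x |u.re| + κ * ℓ)) →
    0 < t → x + g ≤ 2 * t * ℓ → 2 * t * ℓ ≤ X →
    Cnt (Pool.Agent.W169.HF.heat t f) {z : ℂ | z.re ≠ 0 ∧ |z.re| ≤ 1 ∧ |z.im| ≤ 1} (ε * ℓ)

end Pool.Agent.J4H1.LH
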