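import Pool.Agent.J4H1.LH.Stm

/-!
# Project LH, S_OFF, part 4: the half-line part of the heat flow
-/

set_option autoImplicit false

open Complex MeasureTheory Filter Topology Set
open scoped ComplexConjugate

namespace Pool.Agent.J4H1.LH

open Pool.Agent.W169.HF (UD Pf Cnt phx Slow heat)

/-- the half-line part of the heat flow -/
noncomputable def Ah (t : ℝ) (f : ℂ → ℂ) (s : ℂ) : ℂ :=
  ((1 / Real.sqrt Real.pi : ℝ) : ℂ) *
    ∫ v in Ioi (0 : ℝ), ((Real.exp (-v ^ 2) : ℝ) : ℂ) * f (s + ((2 * Real.sqrt t * v : ℝ) : ℂ))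

lemma slow_deriv {f : ℂ → ℂ} (hf : Slow f) {δ : ℝ} (hδ : 0 < δ) : ∃ K : ℝ, 0 < K ∧
    ∀ z : ℂ, ‖f z‖ ≤ K * Real.exp (δ * ‖z‖ ^ 2) ∧ ‖deriv f z‖ ≤ K * Real.exp (δ * ‖z‖ ^ 2) := by
  obtain ⟨K, hK, h⟩ := hf.2 (δ / 2) (by positivity)
  refine ⟨K * Real.exp δ, by positivity, fun z => ⟨?_, ?_⟩⟩
  · refine (h z).trans ?_
    rw [mul_assoc, ← Real.exp_add]
    apply mul_le_mul_of_nonneg_left _ hK.le
    apply Real.exp_le_exp.2
    nlinarith [sq_nonneg ‖z‖]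
  · have h1 := Complex.norm_deriv_le_of_forall_mem_sphere_norm_le (c := z) (R := 1)
      (C := K * Real.exp δ * Real.exp (δ * ‖z‖ ^ 2)) (f := f) one_pos hf.1.diffContOnCl (by
        intro w hw
        rw [mem_sphere_iff_norm] at hw
        refine (h w).trans ?_
        rw [mul_assoc, ← Real.exp_add]
        apply mul_le_mul_of_nonneg_left _ hK.le
        apply Real.exp_le_exp.2
        have h2 : ‖w‖ ≤ ‖z‖ + 1 := by
          have := norm_add_le (w - z) z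
          rw [sub_add_cancel, hw] at this
          linarith
        have h3 : ‖w‖ ^ 2 ≤ 2 * ‖z‖ ^ 2 + 2 := by
          nlinarith [norm_nonneg w, norm_nonneg z, sq_nonneg (‖z‖ - 1)]
        nlinarith)
    rwa [div_one] at h1

lemma gdom {f : ℂ → ℂ} (hf : Slow f) (c : ℝ) (s0 : ℂ) : ∃ K : ℝ, 0 < K ∧
    ∀ (v : ℝ) (s : ℂ), ‖s - s0‖ < 1 →
      ‖((Real.exp (-v ^ 2) : ℝ) : ℂ) * f (s + ((c * v : ℝ) : ℂ))‖ ≤ K * Real.exp (-(1 / 2) * v ^ 2) ∧
      ‖((Real.exp (-v ^ 2) : ℝ) : ℂ) * deriv f (s + ((c * v : ℝ) : ℂ))‖ ≤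
        K * Real.exp (-(1 / 2) * v ^ 2) := by
  obtain ⟨δ, hδ⟩ : ∃ δ : ℝ, δ = 1 / (4 * (c ^ 2 + 1)) := ⟨_, rfl⟩
  have hδ0 : 0 < δ := by rw [hδ]; positivity
  have hδc : 2 * δ * c ^ 2 ≤ 1 / 2 := by
    rw [hδ, mul_one_div, div_mul_eq_mul_div, div_le_iff₀ (by positivity)]
    nlinarith [sq_nonneg c]
  obtain ⟨K, hK, h⟩ := slow_deriv hf hδ0
  refine ⟨K * Real.exp (2 * δ * (‖s0‖ + 1) ^ 2), by positivity, fun v s hs => ?_⟩
  have hn : ‖s + ((c * v : ℝ) : ℂ)‖ ^ 2 ≤ 2 * (‖s0‖ + 1) ^ 2 + 2 * (c ^ 2 * v ^ 2) := by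
    have h1 : ‖s + ((c * v : ℝ) : ℂ)‖ ≤ (‖s0‖ + 1) + |c * v| := by
      refine (norm_add_le _ _).trans ?_
      rw [Complex.norm_real, Real.norm_eq_abs]
      have := norm_add_le (s - s0) s0
      rw [sub_add_cancel] at this
      linarith
    have h2 : ‖s + ((c * v : ℝ) : ℂ)‖ ^ 2 ≤ ((‖s0‖ + 1) + |c * v|) ^ 2 :=
      pow_le_pow_left₀ (norm_nonneg _) h1 2
    have h3 : |c * v| ^ 2 = c ^ 2 * v ^ 2 := by rw [sq_abs]; ring
    nlinarith [sq_nonneg ((‖s0‖ + 1) - |c * v|)]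
  have hexp : Real.exp (-v ^ 2) * (K * Real.exp (δ * ‖s + ((c * v : ℝ) : ℂ)‖ ^ 2)) ≤
      K * Real.exp (2 * δ * (‖s0‖ + 1) ^ 2) * Real.exp (-(1 / 2) * v ^ 2) := by
    rw [mul_left_comm, ← Real.exp_add, mul_assoc, ← Real.exp_add]
    apply mul_le_mul_of_nonneg_left _ hK.le
    apply Real.exp_le_exp.2
    have h1 := mul_le_mul_of_nonneg_left hn hδ0.le
    have h2 := mul_le_mul_of_nonneg_right hδc (sq_nonneg v)
    nlinarith
  constructor
  · rw [norm_mul, Complex.norm_real, Real.norm_eq_abs, abs_of_pos (Real.exp_pos _)]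
    exact (mul_le_mul_of_nonneg_left (h _).1 (Real.exp_pos _).le).trans hexp
  · rw [norm_mul, Complex.norm_real, Real.norm_eq_abs, abs_of_pos (Real.exp_pos _)]
    exact (mul_le_mul_of_nonneg_left (h _).2 (Real.exp_pos _).le).trans hexp

lemma gmeas {f : ℂ → ℂ} (hf : Slow f) (c : ℝ) (s : ℂ) (S : Set ℝ) :
    AEStronglyMeasurable (fun v : ℝ => ((Real.exp (-v ^ 2) : ℝ) : ℂ) * f (s + ((c * v : ℝ) : ℂ)))
      (volume.restrict S) := by
  have := hf.1.continuous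
  exact Continuous.aestronglyMeasurable (by fun_prop)

lemma gint {f : ℂ → ℂ} (hf : Slow f) (c : ℝ) (s : ℂ) :
    Integrable (fun v : ℝ => ((Real.exp (-v ^ 2) : ℝ) : ℂ) * f (s + ((c * v : ℝ) : ℂ))) := by
  obtain ⟨K, hK, h⟩ := gdom hf c s
  refine Integrable.mono' ((integrable_exp_neg_mul_sq (b := 1 / 2) (by norm_num)).const_mul K) ?_
    (Eventually.of_forall fun v => (h v s (by simp)).1)
  have := gmeas hf c s univ
  rwa [Measure.restrict_univ] at this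

/-- the half-line part is entire -/
lemma Ah_diff {f : ℂ → ℂ} (hf : Slow f) (t : ℝ) : Differentiable ℂ (Ah t f) := by
  intro s0
  obtain ⟨K, hK, h⟩ := gdom hf (2 * Real.sqrt t) s0
  have hdf : Continuous (deriv f) := (hf.1.contDiff (n := ⊤)).continuous_deriv (by simp)
  have h1 := hasDerivAt_integral_of_dominated_loc_of_deriv_le (𝕜 := ℂ) (μ := volume.restrict (Ioi 0))
    (F := fun (s : ℂ) (v : ℝ) => ((Real.exp (-v ^ 2) : ℝ) : ℂ) * f (s + ((2 * Real.sqrt t * v : ℝ) : ℂ)))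
    (F' := fun (s : ℂ) (v : ℝ) => ((Real.exp (-v ^ 2) : ℝ) : ℂ) *
      deriv f (s + ((2 * Real.sqrt t * v : ℝ) : ℂ)))
    (x₀ := s0) (bound := fun v => K * Real.exp (-(1 / 2) * v ^ 2)) (s := Metric.ball s0 1)
    (Metric.ball_mem_nhds s0 one_pos)
    (Eventually.of_forall fun s => gmeas hf _ s _)
    (gint hf _ s0).integrableOn
    (Continuous.aestronglyMeasurable (by fun_prop))
    (Eventually.of_forall fun v s hs => (h v s (by rwa [Metric.mem_ball, dist_eq_norm] at hs)).2)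
    ((integrable_exp_neg_mul_sq (b := 1 / 2) (by norm_num)).const_mul K).integrableOn
    (Eventually.of_forall fun v s hs => by
      have h2 : HasDerivAt (fun s : ℂ => s + ((2 * Real.sqrt t * v : ℝ) : ℂ)) 1 s :=
        (hasDerivAt_id s).add_const _
      have h3 := (hf.1 (s + ((2 * Real.sqrt t * v : ℝ) : ℂ))).hasDerivAt.comp s h2
      rw [mul_one] at h3
      exact h3.const_mul _)
  have h2 := (h1.2.const_mul (((1 / Real.sqrt Real.pi : ℝ) : ℂ))).differentiableAt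
  exact h2

/-- the heat flow is entire -/
lemma heat_diff {f : ℂ → ℂ} (hf : Slow f) (t : ℝ) : Differentiable ℂ (heat t f) := by
  intro s0
  obtain ⟨K, hK, h⟩ := gdom hf (2 * Real.sqrt t) s0
  have hdf : Continuous (deriv f) := (hf.1.contDiff (n := ⊤)).continuous_deriv (by simp)
  have h1 := hasDerivAt_integral_of_dominated_loc_of_deriv_le (𝕜 := ℂ) (μ := volume)
    (F := fun (s : ℂ) (v : ℝ) => ((Real.exp (-v ^ 2) : ℝ) : ℂ) * f (s + ((2 * Real.sqrt t * v : ℝ) : ℂ)))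
    (F' := fun (s : ℂ) (v : ℝ) => ((Real.exp (-v ^ 2) : ℝ) : ℂ) *
      deriv f (s + ((2 * Real.sqrt t * v : ℝ) : ℂ)))
    (x₀ := s0) (bound := fun v => K * Real.exp (-(1 / 2) * v ^ 2)) (s := Metric.ball s0 1)
    (Metric.ball_mem_nhds s0 one_pos)
    (Eventually.of_forall fun s => by simpa using gmeas hf (2 * Real.sqrt t) s univ)
    (gint hf _ s0)
    (Continuous.aestronglyMeasurable (by fun_prop))
    (Eventually.of_forall fun v s hs => (h v s (by rwa [Metric.mem_ball, dist_eq_norm] at hs)).2)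
    ((integrable_exp_neg_mul_sq (b := 1 / 2) (by norm_num)).const_mul K)
    (Eventually.of_forall fun v s hs => by
      have h2 : HasDerivAt (fun s : ℂ => s + ((2 * Real.sqrt t * v : ℝ) : ℂ)) 1 s :=
        (hasDerivAt_id s).add_const _
      have h3 := (hf.1 (s + ((2 * Real.sqrt t * v : ℝ) : ℂ))).hasDerivAt.comp s h2
      rw [mul_one] at h3
      exact h3.const_mul _)
  have h2 := (h1.2.const_mul (((1 / Real.sqrt Real.pi : ℝ) : ℂ))).differentiableAt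
  exact h2

/-- the splitting -/
lemma heat_split {f : ℂ → ℂ} (hf : Slow f) {ε : ℂ} (hfe : ∀ u : ℂ, f u = ε * conj (f (-conj u))) (t : ℝ)
    (s : ℂ) : heat t f s = Ah t f s + ε * conj (Ah t f (-conj s)) := by
  have hI := gint hf (2 * Real.sqrt t) s
  unfold heat Ah
  have h1 : ∫ v : ℝ, ((Real.exp (-v ^ 2) : ℝ) : ℂ) * f (s + ((2 * Real.sqrt t * v : ℝ) : ℂ)) =
      (∫ v in Iic (0 : ℝ), ((Real.exp (-v ^ 2) : ℝ) : ℂ) * f (s + ((2 * Real.sqrt t * v : ℝ) : ℂ))) +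
      ∫ v in Ioi (0 : ℝ), ((Real.exp (-v ^ 2) : ℝ) : ℂ) * f (s + ((2 * Real.sqrt t * v : ℝ) : ℂ)) :=
    (intervalIntegral.integral_Iic_add_Ioi hI.integrableOn hI.integrableOn).symm
  have h2 : ∫ v in Iic (0 : ℝ), ((Real.exp (-v ^ 2) : ℝ) : ℂ) * f (s + ((2 * Real.sqrt t * v : ℝ) : ℂ)) =
      ε * conj (∫ v in Ioi (0 : ℝ), ((Real.exp (-v ^ 2) : ℝ) : ℂ) *
        f (-conj s + ((2 * Real.sqrt t * v : ℝ) : ℂ))) := by
    rw [← integral_conj, ← integral_const_mul]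
    have h3 := integral_comp_neg_Ioi (0 : ℝ) (fun v : ℝ => ((Real.exp (-v ^ 2) : ℝ) : ℂ) *
      f (s + ((2 * Real.sqrt t * v : ℝ) : ℂ)))
    rw [neg_zero] at h3
    rw [← h3]
    apply integral_congr_ae
    refine Eventually.of_forall fun v => ?_
    simp only
    rw [hfe, map_mul, Complex.conj_ofReal, neg_sq]
    have e1 : -conj (s + ((2 * Real.sqrt t * -v : ℝ) : ℂ)) = -conj s + ((2 * Real.sqrt t * v : ℝ) : ℂ) := by
      rw [map_add, Complex.conj_ofReal]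
      push_cast
      ring
    rw [e1]
    ring
  rw [h1, h2, map_mul, Complex.conj_ofReal]
  ring

/-- bound for the half-line part from a pointwise bound -/
lemma Ah_le {f : ℂ → ℂ} {t ℓ M : ℝ} {u : ℂ} (hℓ : 0 < ℓ) (hM : 0 ≤ M)
    (h : ∀ v : ℝ, 0 < v → ‖((Real.exp (-v ^ 2) : ℝ) : ℂ) * f (u + ((2 * Real.sqrt t * v : ℝ) : ℂ))‖ ≤
      M * Real.exp (-(1 / ℓ) * v ^ 2)) : ‖Ah t f u‖ ≤ M * Real.sqrt ℓ := by
  have hI : Integrable (fun v : ℝ => Real.exp (-(1 / ℓ) * v ^ 2)) :=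
    integrable_exp_neg_mul_sq (by positivity)
  have hint := norm_integral_le_of_norm_le (μ := volume.restrict (Ioi (0 : ℝ)))
    (hI.const_mul M).integrableOn ((ae_restrict_iff' measurableSet_Ioi).2
      (Eventually.of_forall fun v hv => h v hv))
  have h2 : ∫ v in Ioi (0 : ℝ), M * Real.exp (-(1 / ℓ) * v ^ 2) ≤ ∫ v : ℝ, M * Real.exp (-(1 / ℓ) * v ^ 2) :=
    setIntegral_le_integral (hI.const_mul M) (Eventually.of_forall fun v => by positivity)
  have hpi : 0 < Real.sqrt Real.pi := Real.sqrt_pos.2 Real.pi_pos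
  have hsq : Real.sqrt (Real.pi / (1 / ℓ)) = Real.sqrt Real.pi * Real.sqrt ℓ := by
    rw [div_div_eq_mul_div, div_one, Real.sqrt_mul Real.pi_pos.le]
  have h3 : ∫ v : ℝ, M * Real.exp (-(1 / ℓ) * v ^ 2) = M * (Real.sqrt Real.pi * Real.sqrt ℓ) := by
    rw [integral_const_mul, integral_gaussian, hsq]
  rw [h3] at h2
  unfold Ah
  rw [norm_mul, Complex.norm_real, Real.norm_eq_abs,
    abs_of_nonneg (by positivity : (0 : ℝ) ≤ 1 / Real.sqrt Real.pi)]
  calc 1 / Real.sqrt Real.pi * ‖∫ v in Ioi (0 : ℝ), ((Real.exp (-v ^ 2) : ℝ) : ℂ) *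
        f (u + ((2 * Real.sqrt t * v : ℝ) : ℂ))‖
      ≤ 1 / Real.sqrt Real.pi * (M * (Real.sqrt Real.pi * Real.sqrt ℓ)) :=
        mul_le_mul_of_nonneg_left (hint.trans h2) (by positivity)
    _ = M * Real.sqrt ℓ := by
        have hpi' : Real.sqrt Real.pi ≠ 0 := hpi.ne'
        field_simp

end Pool.Agent.J4H1.LH
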