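import Pool.Agent.J4H1.LH.Off4
import Pool.Agent.J4H34.HF.H11

/-!
# Project LH: families of L-functions, definitions and comparison lemmas
-/

set_option autoImplicit false

open Complex MeasureTheory Filter Topology Set
open scoped ComplexConjugate

namespace Pool.Agent.J4H1.LH

open Pool.Agent.W169.HF (UD Pf Cnt phx Slow)
open Pool.Agent.J4H34.HF (DR Xi cond)

/-- the L-function, continued analytically -/
noncomputable def Lf {m : ℕ} (μ : Fin m → ℂ) (Λ : ℂ → ℂ) (s : ℂ) : ℂ := Λ s * ∏ j, (Gammaℝ (s - μ j))⁻¹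

/-- bound on the critical line -/
def LineBound {ι : Type} (L : ι → ℂ → ℂ) (C : ι → ℝ → ℝ) (θ : ℝ) : Prop :=
  ∀ ε : ℝ, 0 < ε → ∃ B : ℝ, ∀ (i : ι) (t : ℝ), ‖L i (1 / 2 + t * I)‖ ≤ B * C i t ^ (θ + ε)

/-- bound to the right of the critical line -/
def Size {ι : Type} (L : ι → ℂ → ℂ) (C : ι → ℝ → ℝ) (κ : ℝ) : Prop :=
  ∀ ε : ℝ, 0 < ε → ∃ B : ℝ, ∀ (i : ι) (t r : ℝ), 0 ≤ r → r ≤ 1 / 2 →
    ‖L i (1 / 2 + r + t * I)‖ ≤ B * C i t ^ (max (κ - r) 0 ^ 2 / (4 * κ) + ε)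

/-- few zeros at distance `≥ δ` from the line, from the time `κ / log C` on -/
def Few {ι : Type} (X : ι → ℂ → ℂ) (C : ι → ℝ → ℝ) (κ δ : ℝ) : Prop :=
  ∀ ε : ℝ, 0 < ε → ∃ C₀ : ℝ, ∀ (i : ι) (T τ : ℝ), C₀ ≤ Real.log (C i T) → 0 < τ → τ ≤ 1 →
    κ ≤ τ * Real.log (C i T) → Cnt (Pool.Agent.J4H34.HF.heat τ (X i))
      {s : ℂ | s.re ≠ 1 / 2 ∧ δ ≤ |s.re - 1 / 2| ∧ |s.im - T| ≤ 1} (ε * Real.log (C i T))

/-- all zeros on the line, from the time `κ / log C` on -/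
def AllOn {ι : Type} (X : ι → ℂ → ℂ) (C : ι → ℝ → ℝ) (κ : ℝ) : Prop :=
  ∃ C₀ : ℝ, ∀ (i : ι) (s : ℂ) (τ : ℝ), C₀ ≤ Real.log (C i s.im) → 0 < τ → τ ≤ 1 →
    κ ≤ τ * Real.log (C i s.im) → Pool.Agent.J4H34.HF.heat τ (X i) s = 0 → s.re = 1 / 2

lemma Cnt_mono {F : ℂ → ℂ} {A B : Set ℂ} {a b : ℝ} (h : Cnt F A a) (hB : B ⊆ A) (hab : a ≤ b) :
    Cnt F B b := fun S hS => (h S fun z hz => ⟨(hS z hz).1, hB (hS z hz).2⟩).trans hab

lemma Few_mono {ι : Type} {X : ι → ℂ → ℂ} {C : ι → ℝ → ℝ} {κ κ' δ δ' : ℝ} (h : Few X C κ δ) (hκ : κ ≤ κ')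
    (hδ : δ ≤ δ') : Few X C κ' δ' := by
  intro ε hε
  obtain ⟨C₀, H⟩ := h ε hε
  refine ⟨C₀, fun i T τ h1 h2 h3 h4 => ?_⟩
  exact Cnt_mono (H i T τ h1 h2 h3 (by linarith)) (fun z hz => ⟨hz.1, by linarith [hz.2.1], hz.2.2⟩) le_rfl

section cond

variable {m : ℕ} {N : ℝ} {μ : Fin m → ℂ}

lemma cond_shift (hN : 1 ≤ N) (T v : ℝ) : cond N μ (T + v) ≤ (1 + |v|) ^ m * cond N μ T := by
  unfold Pool.Agent.J4H34.HF.cond
  have h1 : ∏ j, (1 + ‖((T + v : ℝ) : ℂ) * I - μ j‖) ≤ ∏ j, ((1 + |v|) * (1 + ‖(T : ℂ) * I - μ j‖)) := by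
    refine Finset.prod_le_prod (fun j _ => by positivity) fun j _ => ?_
    have h2 : ‖((T + v : ℝ) : ℂ) * I - μ j‖ ≤ ‖(T : ℂ) * I - μ j‖ + |v| := by
      have e : ((T + v : ℝ) : ℂ) * I - μ j = ((T : ℂ) * I - μ j) + (v : ℂ) * I := by push_cast; ring
      rw [e]
      refine (norm_add_le _ _).trans ?_
      rw [norm_mul, Complex.norm_I, mul_one, Complex.norm_real, Real.norm_eq_abs]
    have h3 : 0 ≤ |v| * ‖(T : ℂ) * I - μ j‖ := by positivity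
    nlinarith
  rw [Finset.prod_mul_distrib, Finset.prod_const, Finset.card_univ, Fintype.card_fin] at h1
  have h4 := mul_le_mul_of_nonneg_left h1 (by linarith : 0 ≤ N)
  linarith

lemma log_cond_shift (hN : 1 ≤ N) (T v : ℝ) :
    Real.log (cond N μ (T + v)) ≤ Real.log (cond N μ T) + m * Real.log (1 + |v|) := by
  have h0 := Pool.Agent.J4H34.HF.cond_ge (μ := μ) hN (T + v)
  have h1 := Pool.Agent.J4H34.HF.cond_ge (μ := μ) hN T
  have h2 := Real.log_le_log (by linarith) (cond_shift (μ := μ) hN T v)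
  have h3 : 0 < 1 + |v| := by positivity
  rw [Real.log_mul (by positivity) (by linarith), Real.log_pow] at h2
  linarith

lemma log_cond_shift' (hN : 1 ≤ N) (T v : ℝ) :
    Real.log (cond N μ T) ≤ Real.log (cond N μ (T + v)) + m * Real.log (1 + |v|) := by
  have h := log_cond_shift (μ := μ) hN (T + v) (-v)
  rw [abs_neg, add_neg_cancel_right] at h
  exact h

lemma Lf_eq (hN : 0 < N) (Λ : ℂ → ℂ) (s : ℂ) : Lf μ Λ s = Xi N Λ s * (_root_.H353.E.gaf N μ s)⁻¹ := by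
  have h1 : (N : ℂ) ^ (s / 2) ≠ 0 := by
    rw [cpow_def_of_ne_zero (by exact_mod_cast hN.ne')]
    exact Complex.exp_ne_zero _
  unfold Lf Xi _root_.H353.E.gaf
  rw [mul_inv, Finset.prod_inv_distrib]
  field_simp

end cond

/-- the two forms of the flow -/
lemma heat_eq {τ : ℝ} (hτ : 0 < τ) (F : ℂ → ℂ) (c u : ℂ) :
    Pool.Agent.J4H34.HF.heat τ F (c + u) = Pool.Agent.W169.HF.heat τ (fun u => F (c + u)) u := by
  unfold Pool.Agent.J4H34.HF.heat Pool.Agent.W169.HF.heat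
  have hs : 0 < 2 * Real.sqrt τ := by positivity
  have h1 := MeasureTheory.Measure.integral_comp_mul_left (fun v : ℝ => F (c + u + v) * ((Real.exp (-(v ^ 2 / (4 * τ))) : ℝ) : ℂ))
    (2 * Real.sqrt τ)
  have h2 : ∀ v : ℝ, F (c + u + ((2 * Real.sqrt τ * v : ℝ) : ℂ)) *
      ((Real.exp (-((2 * Real.sqrt τ * v) ^ 2 / (4 * τ))) : ℝ) : ℂ) =
      ((Real.exp (-v ^ 2) : ℝ) : ℂ) * F (c + (u + ((2 * Real.sqrt τ * v : ℝ) : ℂ))) := by
    intro v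
    have e1 : (2 * Real.sqrt τ * v) ^ 2 / (4 * τ) = v ^ 2 := by
      rw [mul_pow, mul_pow, Real.sq_sqrt hτ.le]
      field_simp
      ring
    rw [e1, mul_comm, add_assoc]
  simp only [h2] at h1
  rw [h1, abs_of_pos (inv_pos.2 hs), Complex.real_smul, ← mul_assoc, ← Complex.ofReal_mul]
  congr 2
  have e2 : Real.sqrt (4 * Real.pi * τ) = 2 * Real.sqrt Real.pi * Real.sqrt τ := by
    rw [show 4 * Real.pi * τ = (2 ^ 2) * (Real.pi * τ) by ring, Real.sqrt_mul (by norm_num),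
      Real.sqrt_sq (by norm_num), Real.sqrt_mul Real.pi_pos.le]
    ring
  rw [e2]
  have hpi : 0 < Real.sqrt Real.pi := Real.sqrt_pos.2 Real.pi_pos
  have hτ' : 0 < Real.sqrt τ := Real.sqrt_pos.2 hτ
  field_simp

lemma order_shift (F : ℂ → ℂ) (c z : ℂ) :
    analyticOrderNatAt (fun u => F (c + u)) z = analyticOrderNatAt F (c + z) := by
  have hg : AnalyticAt ℂ (fun u : ℂ => c + u) z := by fun_prop
  have hd : deriv (fun u : ℂ => c + u) z ≠ 0 := by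
    rw [deriv_const_add, deriv_id'']
    exact one_ne_zero
  have h := analyticOrderAt_comp_of_deriv_ne_zero (f := F) hg hd
  unfold analyticOrderNatAt
  rw [← h]
  rfl

end Pool.Agent.J4H1.LH
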