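import Pool.Agent.J4H1.LH.FamB
import Pool.Agent.J4H1.LH.Off6
import Pool.Agent.W193.HF.Net

/-!
# Project LH: the size gives few zeros, for families
-/

set_option autoImplicit false

open Complex MeasureTheory Filter Topology Set
open scoped ComplexConjugate

namespace Pool.Agent.J4H1.LH

open Pool.Agent.W169.HF (UD Pf Cnt phx Slow S_NET)
open Pool.Agent.J4H34.HF (DR Xi)

variable {m : ℕ} {K : ℝ}

/-- the zeros of the flow are in the critical strip -/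
lemma strip (hm : 1 ≤ m) {N : ℝ} {μ : Fin m → ℂ} {α : Fin m → ℕ → ℂ} {ε : ℂ} {Λ : ℂ → ℂ}
    (d : DR K N μ α ε Λ) {τ : ℝ} (hτ : 0 < τ) {s : ℂ} (hs : Pool.Agent.J4H34.HF.heat τ (Xi N Λ) s = 0) :
    |s.re - 1 / 2| ≤ 1 / 2 := by
  obtain ⟨hXd, hfe, hbdd, hXe, hgr⟩ := Pool.Agent.J4H34.HF.basic hm d.dat
  have hne := Pool.Agent.J4H34.HF.xi_ne hm d.dat
  have hZ : Pool.Agent.J4H34.HF.ZS (1 / 2) (Xi N Λ) := by
    refine ⟨hXd, ⟨ε, hfe⟩, hgr, fun z hz => ?_⟩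
    by_contra hcon
    push Not at hcon
    have h1 : 1 < z.re := by linarith
    rw [(Pool.Agent.J4H34.HF.xi_eq hm d).2 z h1] at hz
    exact mul_ne_zero ((H353.E.gaf_GP hm d.dat.one_le d.dat.re_le).ne z h1.le)
      (Complex.exp_ne_zero _) hz
  have h1 := Pool.Agent.J4H34.HF.heat_ne hXd hgr hne hτ
  have h2 := hZ.heat hτ h1
  have h3 := h2.zer s hs
  have hfe2 := Pool.Agent.J4H34.HF.heat_fe (f := Xi N Λ) hfe (τ := τ)
  have hε : ε ≠ 0 := by
    have := d.dat.norm_eq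
    intro h0
    rw [h0, norm_zero] at this
    norm_num at this
  have h4 : Pool.Agent.J4H34.HF.heat τ (Xi N Λ) (1 - conj s) = 0 := by
    have h5 := hfe2 s
    rw [hs] at h5
    rcases mul_eq_zero.mp h5.symm with h | h
    · exact absurd h hε
    · exact (map_eq_zero _).mp h
  have h5 := h2.zer _ h4
  rw [sub_re, Complex.conj_re, one_re] at h5
  rw [abs_le]
  constructor <;> linarith

/-- all zeros are on the line when `τ log C ≥ 2` -/
lemma late (hm : 1 ≤ m) (hK : 0 ≤ K) : ∃ C₀ : ℝ, ∀ (N : ℝ) (μ : Fin m → ℂ) (α : Fin m → ℕ → ℂ) (ε : ℂ)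
    (Λ : ℂ → ℂ), DR K N μ α ε Λ → ∀ (τ T : ℝ), 0 < τ → τ ≤ 1 →
      C₀ ≤ Real.log (Pool.Agent.J4H34.HF.cond N μ T) → 2 ≤ τ * Real.log (Pool.Agent.J4H34.HF.cond N μ T) →
      ∀ s : ℂ, |s.im - T| ≤ 1 → Pool.Agent.J4H34.HF.heat τ (Xi N Λ) s = 0 → s.re = 1 / 2 := by
  obtain ⟨C₁, hC₁, H⟩ := Pool.Agent.J4H34.HF.flow_local m hm hK (η := 1 / 4) (by norm_num) (by norm_num)
  refine ⟨4 * (C₁ + m * Real.log 2), ?_⟩
  intro N μ α ε Λ d τ T h0 h1 h2 h3 s hs hz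
  refine (H N μ α ε Λ d τ s h0 h1 ?_ hz).1
  have h4 := log_cond_shift' (μ := μ) d.dat.one_le T (s.im - T)
  rw [add_sub_cancel] at h4
  have h5 : m * Real.log (1 + |s.im - T|) ≤ m * Real.log 2 := by
    apply mul_le_mul_of_nonneg_left _ (Nat.cast_nonneg m)
    exact Real.log_le_log (by positivity) (by linarith)
  have h6 : τ * (Real.log (Pool.Agent.J4H34.HF.cond N μ T) - m * Real.log 2) ≤
      τ * Real.log (Pool.Agent.J4H34.HF.cond N μ s.im) := mul_le_mul_of_nonneg_left (by linarith) h0.le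
  have h7 : τ * (C₁ + m * Real.log 2) ≤ τ * (Real.log (Pool.Agent.J4H34.HF.cond N μ T) / 4) :=
    mul_le_mul_of_nonneg_left (by linarith) h0.le
  nlinarith

/-- the size gives few zeros -/
theorem size_to_few (hAUT : S_AUT) (hO : S_OFF) (hN : S_NET) (hm : 1 ≤ m)
    (hK : 0 ≤ K) {ι : Type} {N : ι → ℝ} {μ : ι → Fin m → ℂ} {α : ι → Fin m → ℕ → ℂ} {ε : ι → ℂ}
    {Λ : ι → ℂ → ℂ} (hD : ∀ i, DR K (N i) (μ i) (α i) (ε i) (Λ i)) {κ κ' : ℝ} (hκ : 0 < κ)
    (hκκ : κ < κ') (h : Size (fun i => Lf (μ i) (Λ i)) (fun i => Pool.Agent.J4H34.HF.cond (N i) (μ i)) κ) :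
    Few (fun i => Xi (N i) (Λ i)) (fun i => Pool.Agent.J4H34.HF.cond (N i) (μ i)) κ' 0 := by
  classical
  obtain ⟨K1, K2, hK1, H1, H2⟩ := hAUT m K hm hK
  intro ε0 hε0
  obtain ⟨κa, Ra, ℓa, hκa, hRa, HO⟩ := hO K1 (3 / 2) κ (κ' - κ) 2 ε0 hK1 (by norm_num) (by norm_num) hκ
    (by linarith) (by norm_num) hε0
  obtain ⟨M, κb, R1, ℓb, hM, hκb, hR1, HN⟩ := hN K1 (3 / 2) κ κa Ra hK1 (by norm_num) (by norm_num) hκ hκa hRa
  have hM1 : (1 : ℝ) ≤ M := by exact_mod_cast hM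
  obtain ⟨η, hη⟩ : ∃ η : ℝ, η = 1 / (2 * M) := ⟨_, rfl⟩
  have hη0 : 0 < η := by rw [hη]; positivity
  have hη1 : η ≤ 1 := by rw [hη, div_le_one (by positivity)]; linarith
  obtain ⟨ℓc, HP⟩ := H2 κb η R1 hκb hη0 hη1 hR1
  obtain ⟨B, HB⟩ := h (κb / 4) (by positivity)
  obtain ⟨C₁, HC⟩ := late (K := K) hm hK
  -- constants
  obtain ⟨W, hW⟩ : ∃ W : ℝ, W = |B| + 1 + m * Real.log (1 + R1) * (κ + κb) + |K2 η| * (2 + R1 ^ 2) := ⟨_, rfl⟩
  have hlR : 0 ≤ Real.log (1 + R1) := Real.log_nonneg (by linarith)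
  have hW0 : 0 ≤ W := by rw [hW]; positivity
  refine ⟨2 * |ℓa| + 2 * |ℓb| + 2 * |ℓc| + |C₁| + 4 * W / κb + 1, ?_⟩
  intro i T τ hC hτ0 hτ1 hκτ
  obtain ⟨c, hc⟩ : ∃ c : ℝ, c = Pool.Agent.J4H34.HF.cond (N i) (μ i) T := ⟨_, rfl⟩
  simp only at hC hκτ ⊢
  rw [← hc] at hC hκτ ⊢
  have q1 : 0 ≤ 4 * W / κb := by positivity
  have a1 := abs_nonneg ℓa
  have a2 := abs_nonneg ℓb
  have a3 := abs_nonneg ℓc
  have a4 := abs_nonneg C₁
  have b1 := le_abs_self ℓa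
  have b2 := le_abs_self ℓb
  have b3 := le_abs_self ℓc
  have b4 := le_abs_self C₁
  have hNi := (hD i).dat.one_le
  have hlc : 0 < Real.log c := by linarith
  have hℓc : lT (N i) (μ i) T = Real.log c / 2 := by rw [lT, hc]
  rcases lt_or_ge 2 (τ * Real.log c) with h2 | h2
  · -- late times
    intro S hS
    have hS0 : S = ∅ := by
      rw [Finset.eq_empty_iff_forall_notMem]
      intro s hs
      obtain ⟨h3, h4, -, h5⟩ := hS s hs
      exact h4 (HC (N i) (μ i) (α i) (ε i) (Λ i) (hD i) τ T hτ0 hτ1 (by rw [← hc]; linarith)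
        (by rw [← hc]; exact h2.le) s h5 h3)
    rw [hS0, Finset.sum_empty]
    positivity
  -- the size of `f`
  obtain ⟨hud, hgi, hgu⟩ := H1 (N i) (μ i) (α i) (ε i) (Λ i) (hD i) T
  have hG := hud.hG
  obtain ⟨G, hGd⟩ : ∃ G : ℝ, G = GT (N i) (μ i) T := ⟨_, rfl⟩
  obtain ⟨ℓ, hℓ⟩ : ∃ ℓ : ℝ, ℓ = lT (N i) (μ i) T := ⟨_, rfl⟩
  have hpf := HP (N i) (μ i) (α i) (ε i) (Λ i) (hD i) T (by rw [hℓc]; linarith)
  rw [← hℓ] at hℓc
  have hWℓ : W ≤ κb / 2 * ℓ := by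
    have : 4 * W / κb ≤ Real.log c := by linarith
    rw [div_le_iff₀ hκb] at this
    rw [hℓc]
    linarith
  have hsz := HN ℓ G (fT (N i) (Λ i) T) (by rw [hℓc]; linarith) (by rw [hℓ, hGd]; exact hud)
    (by rw [hℓ, hGd, ← hη]; exact hpf) (by
    intro k hk1 hkM v hv
    have hk1' : (1 : ℝ) ≤ k := by exact_mod_cast hk1
    have hkM' : (k : ℝ) ≤ M := by exact_mod_cast hkM
    obtain ⟨r, hr⟩ : ∃ r : ℝ, r = k / (2 * M) := ⟨_, rfl⟩
    have hrη : η ≤ r := by rw [hη, hr]; gcongr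
    have hr2 : r ≤ 1 / 2 := by
      rw [hr, div_le_iff₀ (by positivity)]
      linarith
    have hr0 : 0 ≤ r := by linarith
    have e1 : ((k / (2 * M) : ℝ) : ℂ) = (r : ℂ) := by rw [hr]
    rw [e1, ← hr]
    obtain ⟨u, hu⟩ : ∃ u : ℂ, u = (r : ℂ) + v * I := ⟨_, rfl⟩
    have hure : u.re = r := by rw [hu]; simp
    have huim : u.im = v := by rw [hu]; simp
    obtain ⟨hg0, hgup⟩ := hgu η hη0 u (by rw [hure]; exact hrη)
    rw [← hu]
    have hu2 : ‖u‖ ^ 2 ≤ 1 + R1 ^ 2 := by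
      rw [← Complex.normSq_eq_norm_sq, Complex.normSq_apply, hure, huim]
      have : v * v ≤ R1 ^ 2 := by
        rw [← sq, ← sq_abs]; exact pow_le_pow_left₀ (abs_nonneg _) hv 2
      nlinarith
    have hfac : fT (N i) (Λ i) T u = Lf (μ i) (Λ i) (1 / 2 + T * I + u) * gT (N i) (μ i) T u := by
      rw [Lf_eq (by linarith : 0 < N i)]
      unfold fT
      have : gT (N i) (μ i) T u = _root_.H353.E.gaf (N i) (μ i) (1 / 2 + T * I + u) := rfl
      rw [← this, mul_assoc, inv_mul_cancel₀ hg0, mul_one]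
    have hL := HB i (T + v) r hr0 hr2
    have e2 : (1 / 2 + (r : ℂ) + ((T + v : ℝ) : ℂ) * I) = 1 / 2 + T * I + u := by
      rw [hu]; push_cast; ring
    simp only at hL
    rw [e2] at hL
    obtain ⟨E, hE⟩ : ∃ E : ℝ, E = max (κ - r) 0 ^ 2 / (4 * κ) + κb / 4 := ⟨_, rfl⟩
    have hmx : max (κ - r) 0 ^ 2 / (4 * κ) ≤ κ / 4 := by
      rw [div_le_iff₀ (by positivity)]
      have h3 : max (κ - r) 0 ≤ κ := max_le (by linarith) hκ.le
      have h4 : max (κ - r) 0 ^ 2 ≤ κ ^ 2 := pow_le_pow_left₀ (le_max_right _ _) h3 2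
      nlinarith
    have hE0 : 0 ≤ E := by rw [hE]; positivity
    have hE1 : E ≤ κ + κb := by rw [hE]; linarith
    rw [← hE] at hL
    have hcv := log_cond_shift (μ := μ i) hNi T v
    rw [← hc] at hcv
    have hcv0 : 0 < Pool.Agent.J4H34.HF.cond (N i) (μ i) (T + v) := by
      have := Pool.Agent.J4H34.HF.cond_ge (μ := μ i) hNi (T + v)
      linarith
    have hlv : m * Real.log (1 + |v|) ≤ m * Real.log (1 + R1) := by
      apply mul_le_mul_of_nonneg_left _ (Nat.cast_nonneg m)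
      exact Real.log_le_log (by positivity) (by linarith)
    have hL2 : ‖Lf (μ i) (Λ i) (1 / 2 + T * I + u)‖ ≤
        Real.exp (|B| + (Real.log c + m * Real.log (1 + R1)) * E) := by
      refine hL.trans ?_
      rw [Real.rpow_def_of_pos hcv0, Real.exp_add]
      apply mul_le_mul
      · have := Real.add_one_le_exp |B|
        have := le_abs_self B
        linarith
      · apply Real.exp_le_exp.2
        exact mul_le_mul_of_nonneg_right (by linarith) hE0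
      · exact (Real.exp_pos _).le
      · exact (Real.exp_pos _).le
    rw [hfac, norm_mul]
    rw [← hGd, ← hℓ, hure] at hgup
    have hK2 : K2 η * (1 + ‖u‖ ^ 2) ≤ |K2 η| * (2 + R1 ^ 2) := by
      calc K2 η * (1 + ‖u‖ ^ 2) ≤ |K2 η| * (1 + ‖u‖ ^ 2) :=
            mul_le_mul_of_nonneg_right (le_abs_self _) (by positivity)
        _ ≤ |K2 η| * (2 + R1 ^ 2) := mul_le_mul_of_nonneg_left (by linarith) (abs_nonneg _)
    calc ‖Lf (μ i) (Λ i) (1 / 2 + T * I + u)‖ * ‖gT (N i) (μ i) T u‖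
        ≤ Real.exp (|B| + (Real.log c + m * Real.log (1 + R1)) * E) *
          (G * Real.exp (ℓ * r + K2 η * (1 + ‖u‖ ^ 2))) :=
          mul_le_mul hL2 hgup (norm_nonneg _) (Real.exp_pos _).le
      _ = G * Real.exp (|B| + (Real.log c + m * Real.log (1 + R1)) * E +
            (ℓ * r + K2 η * (1 + ‖u‖ ^ 2))) := by
          rw [Real.exp_add (|B| + (Real.log c + m * Real.log (1 + R1)) * E)]; ring
      _ ≤ G * Real.exp (ℓ * phx κ r + κb * ℓ) := by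
          apply mul_le_mul_of_nonneg_left _ (by rw [hGd]; exact hG.le)
          apply Real.exp_le_exp.2
          have h14 : phx κ r = r + max (κ - r) 0 ^ 2 / (2 * κ) := rfl
          have h15 : max (κ - r) 0 ^ 2 / (2 * κ) = 2 * (max (κ - r) 0 ^ 2 / (4 * κ)) := by
            field_simp
            ring
          have h16 : m * Real.log (1 + R1) * E ≤ m * Real.log (1 + R1) * (κ + κb) :=
            mul_le_mul_of_nonneg_left hE1 (by positivity)
          rw [h14, h15]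
          have h17 : Real.log c * E = ℓ * (2 * (max (κ - r) 0 ^ 2 / (4 * κ))) + κb / 2 * ℓ := by
            rw [hE, hℓc]; ring
          rw [hW] at hWℓ
          nlinarith)
  have hcnt := HO ℓ G τ (fT (N i) (Λ i) T) (by rw [hℓc]; linarith) (by rw [hℓ, hGd]; exact hud) hsz hτ0
    (by rw [hℓc]; linarith) (by rw [hℓc]; linarith)
  have h3 := cnt_to hτ0 (F := Xi (N i) (Λ i)) (1 / 2 + (T : ℂ) * I)
    (A := {s : ℂ | s.re ≠ 1 / 2 ∧ 0 ≤ |s.re - 1 / 2| ∧ |s.im - T| ≤ 1}) hcnt (by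
      intro s hs hz
      have hst := strip hm (hD i) hτ0 hz
      have hre : (s - (1 / 2 + (T : ℂ) * I)).re = s.re - 1 / 2 := by simp
      have him : (s - (1 / 2 + (T : ℂ) * I)).im = s.im - T := by simp
      simp only [Set.mem_ofPred_eq]
      rw [hre, him]
      refine ⟨fun h0 => hs.1 (by linarith), by linarith, hs.2.2⟩)
  refine Cnt_mono h3 (fun z hz => hz) ?_
  rw [hℓc]
  nlinarith

end Pool.Agent.J4H1.LH
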