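import Pool.Agent.J4H1.LH.FamE

/-!
# Project LH: the local theorem for bounds on the line
-/

set_option autoImplicit false

open Complex MeasureTheory Filter Topology Set
open scoped ComplexConjugate

namespace Pool.Agent.J4H1.LH

open Pool.Agent.W169.HF (UD Pf Mj Cnt phx Slow)
open Pool.Agent.J4H34.HF (DR Xi)

/-- a bound on the line near height `T` gives all zeros of the flow at height `T` on the line -/
theorem local_allon (hA : AllS) {m : ℕ} (hm : 1 ≤ m) {K : ℝ} (hK : 0 ≤ K) {θ κ : ℝ} (hθ : 0 ≤ θ)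
    (hθ1 : θ ≤ 1 / 4) (hκ : 1 < κ * (2 - 4 * θ)) : ∃ δ R C₀ : ℝ, 0 < δ ∧
      ∀ (N : ℝ) (μ : Fin m → ℂ) (α : Fin m → ℕ → ℂ) (ε : ℂ) (Λ : ℂ → ℂ),
      DR K N μ α ε Λ → ∀ T : ℝ, C₀ ≤ Real.log (Pool.Agent.J4H34.HF.cond N μ T) →
      (∀ t : ℝ, |t - T| ≤ R → ‖Lf μ Λ (1 / 2 + t * I)‖ ≤ Pool.Agent.J4H34.HF.cond N μ t ^ (θ + δ)) →
      ∀ (τ : ℝ) (s : ℂ), 0 < τ → τ ≤ 1 → κ ≤ τ * Real.log (Pool.Agent.J4H34.HF.cond N μ T) → s.im = T →
        Pool.Agent.J4H34.HF.heat τ (Xi N Λ) s = 0 → s.re = 1 / 2 := by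
  obtain ⟨K1, K2, hK1, H1, H2⟩ := hA.aut m K hm hK
  obtain ⟨p, hp⟩ : ∃ p : ℝ, p = κ * (2 - 4 * θ) - 1 := ⟨_, rfl⟩
  have hp0 : 0 < p := by linarith
  obtain ⟨η, hη⟩ : ∃ η : ℝ, η = min (p / 16) (1 / 2) := ⟨_, rfl⟩
  have hη0 : 0 < η := by rw [hη]; exact lt_min (by positivity) (by norm_num)
  have hηp : η ≤ p / 16 := by rw [hη]; exact min_le_left _ _
  have hη1 : η ≤ 1 / 2 := by rw [hη]; exact min_le_right _ _
  obtain ⟨g, hg⟩ : ∃ g : ℝ, g = min (p / 4) 1 := ⟨_, rfl⟩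
  have hg0 : 0 < g := by rw [hg]; exact lt_min (by positivity) one_pos
  have hgp : g ≤ p / 4 := by rw [hg]; exact min_le_left _ _
  have hg1 : g ≤ 1 := by rw [hg]; exact min_le_right _ _
  have hκ0 : 0 < κ := by
    by_contra hcon
    push Not at hcon
    have : κ * (2 - 4 * θ) ≤ 0 := mul_nonpos_of_nonpos_of_nonneg hcon (by linarith)
    linarith
  obtain ⟨κf, Rf, ℓf, hκf, HF⟩ := hA.fwd2 K1 (3 / 2) (1 / 2 + η) (2 * θ) g 2 hK1 (by norm_num) (by norm_num)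
    (by linarith) (by linarith) (by linarith) (by linarith) hg0 hg1 (by norm_num)
  obtain ⟨κ', R, ρ, ℓ1, hκ', hρ, hρ1, HM⟩ := Pool.Agent.W169.HF.maj hA.rect (K := K1) (K1 := K1) (ϑ0 := 3 / 2)
    (b := 1 / 2 + η) (M0 := 2 * θ) (κ := κf) hK1 (by linarith) (by norm_num) (by norm_num) (by linarith)
    (by linarith) (by linarith) (by linarith) hκf K2
  obtain ⟨R', hR'⟩ : ∃ R' : ℝ, R' = max (max R 1) Rf := ⟨_, rfl⟩
  have hR'1 : 1 ≤ R' := by rw [hR']; exact (le_max_right _ _).trans (le_max_left _ _)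
  have hRR' : R ≤ R' := by rw [hR']; exact (le_max_left _ _).trans (le_max_left _ _)
  have hRfR' : Rf ≤ R' := by rw [hR']; exact le_max_right _ _
  obtain ⟨ℓc, HP⟩ := H2 κ' η R' hκ' hη0 (by linarith) hR'1
  obtain ⟨ℓd, HP2⟩ := H2 κf η R' hκf hη0 (by linarith) hR'1
  obtain ⟨W, hW⟩ : ∃ W : ℝ, W = m * Real.log (1 + R') * (1 + κ') := ⟨_, rfl⟩
  have hlR : 0 ≤ Real.log (1 + R') := Real.log_nonneg (by linarith)
  have hW0 : 0 ≤ W := by rw [hW]; positivity
  obtain ⟨C₁, HC⟩ := late (K := K) hm hK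
  refine ⟨κ' / 4, R', 2 * |ℓ1| + 2 * |ℓc| + 2 * |ℓd| + 2 * |ℓf| + |C₁| + 4 * W / κ' + 1, by positivity, ?_⟩
  intro N μ α ε Λ hD T hC HB τ s hτ0 hτ1 hκτ hsT hz
  obtain ⟨c, hc⟩ : ∃ c : ℝ, c = Pool.Agent.J4H34.HF.cond N μ T := ⟨_, rfl⟩
  rw [← hc] at hC hκτ
  have q1 : 0 ≤ 4 * W / κ' := by positivity
  have a1 := abs_nonneg ℓ1
  have a2 := abs_nonneg ℓf
  have a3 := abs_nonneg ℓc
  have a4 := abs_nonneg C₁
  have a5 := abs_nonneg ℓd
  have b1 := le_abs_self ℓ1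
  have b2 := le_abs_self ℓf
  have b3 := le_abs_self ℓc
  have b4 := le_abs_self C₁
  have b5 := le_abs_self ℓd
  have hNi := hD.dat.one_le
  have hlc : 0 < Real.log c := by linarith
  have hℓc : lT N μ T = Real.log c / 2 := by rw [lT, hc]
  rcases lt_or_ge 2 (τ * Real.log c) with h2 | h2
  · exact HC N μ α ε Λ hD τ T hτ0 hτ1 (by rw [← hc]; linarith)
        (by rw [← hc]; exact h2.le) s (by rw [hsT]; simp) hz
  obtain ⟨hud, hgi, hgu⟩ := H1 N μ α ε Λ hD T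
  have hpf := HP N μ α ε Λ hD T (by rw [hℓc]; linarith)
  have hpf2 := HP2 N μ α ε Λ hD T (by rw [hℓc]; linarith)
  have hWℓ : W ≤ κ' / 4 * Real.log c := by
    have : 4 * W / κ' ≤ Real.log c := by linarith
    rw [div_le_iff₀ hκ'] at this
    linarith
  have hmj : Mj κf (1 / 2 + η) (2 * θ) (lT N μ T) (GT N μ T) (fT N Λ T) := by
    refine HM (lT N μ T) (GT N μ T) (fT N Λ T)
      (fun u => Lf μ Λ (1 / 2 + T * I + u)) (gT N μ T) (by rw [hℓc]; linarith) hud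
      (Pf_mono hpf hRR') ((Lf_diff hD.dat.entire).comp (by fun_prop)) (fun u => ?_) hgi
      (fun u hu => hgu ρ hρ u hu) (fun v hv => ?_)
    · rw [Lf_eq (by linarith : 0 < N)]
      rfl
    · have hL := HB (T + v) (by rw [add_sub_cancel_left]; linarith)
      have e2 : (1 / 2 + ((T + v : ℝ) : ℂ) * I) = 1 / 2 + T * I + (v : ℂ) * I := by
        push_cast; ring
      skip
      rw [e2] at hL
      refine hL.trans ?_
      have hcv := log_cond_shift (μ := μ) hNi T v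
      rw [← hc] at hcv
      have hcv0 : 0 < Pool.Agent.J4H34.HF.cond N μ (T + v) := by
        have := Pool.Agent.J4H34.HF.cond_ge (μ := μ) hNi (T + v)
        linarith
      have hlv : m * Real.log (1 + |v|) ≤ m * Real.log (1 + R') := by
        apply mul_le_mul_of_nonneg_left _ (Nat.cast_nonneg m)
        exact Real.log_le_log (by positivity) (by linarith)
      have hE0 : 0 ≤ θ + κ' / 4 := by positivity
      rw [Real.rpow_def_of_pos hcv0]
      apply Real.exp_le_exp.2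
      have h15 : Real.log (Pool.Agent.J4H34.HF.cond N μ (T + v)) * (θ + κ' / 4) ≤
          (Real.log c + m * Real.log (1 + R')) * (θ + κ' / 4) :=
        mul_le_mul_of_nonneg_right (by linarith) hE0
      refine h15.trans ?_
      rw [hℓc]
      have h16 : m * Real.log (1 + R') * (θ + κ' / 4) ≤ m * Real.log (1 + R') * (1 + κ') :=
        mul_le_mul_of_nonneg_left (by linarith) (by positivity)
      rw [hW] at hWℓ
      nlinarith
  by_contra hne
  have hst := strip hm hD hτ0 hz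
  have hx : s.re - 1 / 2 ≠ 0 := fun h0 => hne (by linarith)
  have h3 := HF (lT N μ T) (GT N μ T) τ (fT N Λ T)
    (by rw [hℓc]; linarith) hud (Pf_mono hpf2 hRfR') hmj hτ0 (by
      have e1 : 2 * τ * lT N μ T = τ * Real.log c := by rw [hℓc]; ring
      rw [e1]
      have h4 : (2 * (1 / 2 + η) - 2 * θ) * κ ≤ (2 * (1 / 2 + η) - 2 * θ) * (τ * Real.log c) :=
        mul_le_mul_of_nonneg_left hκτ (by linarith)
      have h5 : 2 * (1 / 2 + η) ^ 2 + g ≤ (2 * (1 / 2 + η) - 2 * θ) * κ := by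
        have h6 : 0 ≤ η * κ := by positivity
        nlinarith
      linarith) (by rw [hℓc]; linarith) (s.re - 1 / 2) hx (by linarith)
  apply h3
  have e2 : s = (1 / 2 + (T : ℂ) * I) + ((s.re - 1 / 2 : ℝ) : ℂ) := by
    rw [← hsT]
    apply Complex.ext <;> simp
  rw [e2, heat_eq hτ0] at hz
  exact hz

end Pool.Agent.J4H1.LH
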