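import Pool.Agent.J4H1.LH.Stm
import Pool.Agent.W186.LH.Fac
import Pool.Agent.W327.HF.Fwd

/-!
# Project LH, S_OFF, part 1: zeros on the line from the variation of a phase
-/

set_option autoImplicit false

open Complex MeasureTheory Filter Topology Set
open scoped ComplexConjugate

namespace Pool.Agent.J4H1.LH

/-- polar form of `i t - z` with bounded phase -/
lemma polar (z : ℂ) : ∃ ρ θ : ℝ → ℝ, Continuous θ ∧ (∀ s t, |θ s - θ t| ≤ Real.pi) ∧
    ∀ t : ℝ, (t : ℂ) * I - z = (ρ t : ℂ) * cexp ((θ t : ℂ) * I) := by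
  by_cases h : z.re = 0
  · refine ⟨fun t => t - z.im, fun _ => Real.pi / 2, continuous_const, ?_, ?_⟩
    · intro s t
      simp only [sub_self, abs_zero]
      exact Real.pi_pos.le
    · intro t
      have h1 : cexp (((Real.pi / 2 : ℝ) : ℂ) * I) = I := by
        rw [Complex.exp_mul_I]
        push_cast
        rw [Complex.cos_pi_div_two, Complex.sin_pi_div_two]
        ring
      rw [h1]
      apply Complex.ext <;> simp [h]
  · refine ⟨fun t => -z.re * Real.sqrt (1 + ((t - z.im) / z.re) ^ 2),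
      fun t => -Real.arctan ((t - z.im) / z.re), by fun_prop, ?_, ?_⟩
    · intro s t
      have h1 := Real.arctan_lt_pi_div_two ((s - z.im) / z.re)
      have h2 := Real.arctan_lt_pi_div_two ((t - z.im) / z.re)
      have h3 := Real.neg_pi_div_two_lt_arctan ((s - z.im) / z.re)
      have h4 := Real.neg_pi_div_two_lt_arctan ((t - z.im) / z.re)
      rw [abs_le]
      constructor <;> linarith
    · intro t
      obtain ⟨x, hx⟩ : ∃ x : ℝ, x = (t - z.im) / z.re := ⟨_, rfl⟩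
      simp only [← hx]
      have hx2 : z.re * x = t - z.im := by rw [hx]; field_simp
      have hs : 0 < Real.sqrt (1 + x ^ 2) := Real.sqrt_pos.2 (by positivity)
      rw [Complex.exp_mul_I, ← Complex.ofReal_cos, ← Complex.ofReal_sin, Real.cos_neg, Real.sin_neg,
        Real.cos_arctan, Real.sin_arctan]
      apply Complex.ext
      · simp
        field_simp
      · simp
        field_simp
        linarith

lemma polar_prod (Z : Finset ℂ) (m : ℂ → ℕ) : ∃ ρ θ : ℝ → ℝ, Continuous θ ∧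
    (∀ s t, |θ s - θ t| ≤ Real.pi * ∑ z ∈ Z, (m z : ℝ)) ∧
    ∀ t : ℝ, ∏ z ∈ Z, ((t : ℂ) * I - z) ^ (m z) = (ρ t : ℂ) * cexp ((θ t : ℂ) * I) := by
  classical
  induction Z using Finset.induction_on with
  | empty =>
    refine ⟨fun _ => 1, fun _ => 0, continuous_const, ?_, ?_⟩
    · intro s t; simp
    · intro t; simp
  | insert z Z hz ih =>
    obtain ⟨ρ, θ, h1, h2, h3⟩ := ih
    obtain ⟨ρ', θ', h1', h2', h3'⟩ := polar z
    refine ⟨fun t => ρ' t ^ (m z) * ρ t, fun t => (m z : ℝ) * θ' t + θ t, by fun_prop, ?_, ?_⟩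
    · intro s t
      rw [Finset.sum_insert hz]
      have e1 : (m z : ℝ) * θ' s + θ s - ((m z : ℝ) * θ' t + θ t) =
          (m z : ℝ) * (θ' s - θ' t) + (θ s - θ t) := by ring
      rw [e1]
      refine (abs_add_le _ _).trans ?_
      rw [abs_mul, abs_of_nonneg (Nat.cast_nonneg (m z))]
      have h4 := mul_le_mul_of_nonneg_left (h2' s t) (Nat.cast_nonneg (α := ℝ) (m z))
      have h5 := h2 s t
      linarith
    · intro t
      rw [Finset.prod_insert hz, h3, h3', mul_pow, ← Complex.exp_nat_mul]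
      push_cast
      rw [add_mul, Complex.exp_add]
      ring_nf

/-- zeros of the cosine from the variation of the phase -/
lemma cross {θ : ℝ → ℝ} {a b : ℝ} (hab : a ≤ b) (hθ : ContinuousOn θ (Icc a b)) :
    ∃ S : Finset ℝ, (∀ s ∈ S, a ≤ s ∧ s < b ∧ Real.cos (θ s) = 0) ∧
      θ b - θ a ≤ Real.pi * (S.card + 2) := by
  classical
  have hpi := Real.pi_pos
  obtain ⟨n1, hn1⟩ : ∃ n : ℤ, n = ⌈θ a / Real.pi - 1 / 2⌉ := ⟨_, rfl⟩
  obtain ⟨n2, hn2⟩ : ∃ n : ℤ, n = ⌊θ b / Real.pi - 1 / 2⌋ := ⟨_, rfl⟩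
  have h1 : ∀ n ∈ Finset.Icc n1 n2, ∃ s ∈ Icc a b, θ s = Real.pi * (n + 1 / 2) := by
    intro n hn
    rw [Finset.mem_Icc] at hn
    have h2 : θ a ≤ Real.pi * (n + 1 / 2) := by
      have h3 : θ a / Real.pi - 1 / 2 ≤ n := by
        have := Int.le_ceil (θ a / Real.pi - 1 / 2)
        rw [← hn1] at this
        exact this.trans (by exact_mod_cast hn.1)
      have h4 : θ a / Real.pi ≤ n + 1 / 2 := by linarith
      rw [div_le_iff₀ hpi] at h4
      linarith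
    have h3 : Real.pi * (n + 1 / 2) ≤ θ b := by
      have h3 : (n : ℝ) ≤ θ b / Real.pi - 1 / 2 := by
        have := Int.floor_le (θ b / Real.pi - 1 / 2)
        rw [← hn2] at this
        exact le_trans (by exact_mod_cast hn.2) this
      have h4 : (n : ℝ) + 1 / 2 ≤ θ b / Real.pi := by linarith
      rw [le_div_iff₀ hpi] at h4
      linarith
    have h4 := intermediate_value_Icc hab hθ ⟨h2, h3⟩
    exact h4
  choose! s hs using h1
  refine ⟨((Finset.Icc n1 n2).image s).erase b, ?_, ?_⟩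
  · intro x hx
    rw [Finset.mem_erase, Finset.mem_image] at hx
    obtain ⟨hxb, n, hn, hnx⟩ := hx
    obtain ⟨h2, h3⟩ := hs n hn
    rw [hnx] at h2 h3
    refine ⟨h2.1, lt_of_le_of_ne h2.2 hxb, ?_⟩
    rw [h3]
    have : Real.pi * ((n : ℝ) + 1 / 2) = Real.pi / 2 + n * Real.pi := by ring
    rw [this, Real.cos_add_int_mul_pi, Real.cos_pi_div_two, mul_zero]
  · have hinj : Set.InjOn s (Finset.Icc n1 n2 : Finset ℤ) := by
      intro n hn n' hn' he
      have h2 := (hs n hn).2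
      have h3 := (hs n' hn').2
      rw [he, h3] at h2
      have h4 := mul_left_cancel₀ hpi.ne' h2
      have h5 : (n' : ℝ) = n := by linarith
      exact_mod_cast h5.symm
    have hcard := Finset.card_image_of_injOn hinj
    have h2 := Finset.pred_card_le_card_erase (s := (Finset.Icc n1 n2).image s) (a := b)
    rw [hcard, Int.card_Icc] at h2
    have h3 : (n2 + 1 - n1 : ℤ) ≤ ((((Finset.Icc n1 n2).image s).erase b).card : ℤ) + 1 := by omega
    have h4 : ((n2 + 1 - n1 : ℤ) : ℝ) ≤ ((((Finset.Icc n1 n2).image s).erase b).card : ℝ) + 1 := by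
      exact_mod_cast h3
    push_cast at h4
    have h5 := Int.lt_floor_add_one (θ b / Real.pi - 1 / 2)
    have h6 := Int.ceil_lt_add_one (θ a / Real.pi - 1 / 2)
    rw [← hn2] at h5
    rw [← hn1] at h6
    have h7 : θ b / Real.pi - θ a / Real.pi ≤
        ((((Finset.Icc n1 n2).image s).erase b).card : ℝ) + 2 := by linarith
    have h8 : θ b - θ a = Real.pi * (θ b / Real.pi - θ a / Real.pi) := by field_simp
    rw [h8]
    exact mul_le_mul_of_nonneg_left h7 hpi.le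

/-- logarithm of a zero free function, with Borel-Caratheodory -/
lemma logb {g : ℂ → ℂ} {c : ℂ} {r ρ B : ℝ} (hρr : ρ < r) (hρ : 0 ≤ ρ) (hB : 0 < B)
    (hg : Differentiable ℂ g) (hg0 : ∀ z ∈ Metric.ball c r, g z ≠ 0)
    (hb : ∀ z ∈ Metric.ball c r, ‖g z‖ ≤ Real.exp B * ‖g c‖) :
    ∃ h : ℂ → ℂ, ContinuousOn h (Metric.ball c r) ∧ (∀ z ∈ Metric.ball c r, g z = g c * cexp (h z)) ∧
      ∀ z ∈ Metric.closedBall c ρ, ‖h z‖ ≤ 2 * B * ρ / (r - ρ) := by
  have hr : 0 < r := by linarith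
  have hgc : g c ≠ 0 := hg0 c (Metric.mem_ball_self hr)
  have hgc' : 0 < ‖g c‖ := norm_pos_iff.2 hgc
  have hmap : ∀ z ∈ Metric.ball (0 : ℂ) r, c + z ∈ Metric.ball c r := by
    intro z hz
    rw [mem_ball_zero_iff] at hz
    rw [Metric.mem_ball, dist_eq_norm, add_sub_cancel_left]
    exact hz
  obtain ⟨f, hf, hf0, hfk⟩ := W327.HF.exlog (k := fun z => g (c + z) / g c) hr
    (by
      apply Differentiable.differentiableOn
      fun_prop)
    (fun z hz => div_ne_zero (hg0 _ (hmap z hz)) hgc) (by simp [hgc])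
  have hre : ∀ z ∈ Metric.ball (0 : ℂ) r, (f z).re ≤ B := by
    intro z hz
    have h1 := hb _ (hmap z hz)
    have h2 : ‖g (c + z) / g c‖ ≤ Real.exp B := by
      rw [norm_div, div_le_iff₀ hgc']
      exact h1
    rw [hfk z hz, Complex.norm_exp] at h2
    exact Real.exp_le_exp.1 h2
  have hmap2 : ∀ z ∈ Metric.ball c r, z - c ∈ Metric.ball (0 : ℂ) r := by
    intro z hz
    rw [mem_ball_zero_iff]
    rwa [Metric.mem_ball, dist_eq_norm] at hz
  refine ⟨fun z => f (z - c), ?_, ?_, ?_⟩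
  · exact hf.continuousOn.comp (by fun_prop) hmap2
  · intro z hz
    have h1 := hfk _ (hmap2 z hz)
    simp only [add_sub_cancel] at h1
    rw [← h1]
    field_simp
  · intro z hz
    have h1 : ‖z - c‖ ≤ ρ := by rwa [Metric.mem_closedBall, dist_eq_norm] at hz
    have h2 : z - c ∈ Metric.ball (0 : ℂ) r := by
      rw [mem_ball_zero_iff]; linarith
    refine (borelCaratheodory_zero hB hf (fun z hz => hre z hz) hr h2 hf0).trans ?_
    have h3 : 0 < r - ρ := by linarith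
    have h4 : 0 < r - ‖z - c‖ := by linarith
    rw [div_le_div_iff₀ h4 h3]
    have h5 : ‖z - c‖ * (r - ρ) ≤ ρ * (r - ‖z - c‖) := by nlinarith [norm_nonneg (z - c)]
    nlinarith

/-- zeros on a short segment -/
lemma seg {A A1 g : ℂ → ℂ} {ℓ B ρ r : ℝ} {c ε : ℂ} {F : ℂ → ℂ} (hε : ‖ε‖ = 1)
    (hF : ∀ t : ℝ, F (t * I) = A (t * I) + ε * conj (A (t * I)))
    (hA : ∀ u, A u = cexp (ℓ * u) * A1 u) {Z : Finset ℂ} {m : ℂ → ℕ} (hg : Differentiable ℂ g)
    (hfac : ∀ u, A1 u = (∏ z ∈ Z, (u - z) ^ (m z)) * g u) (hρr : ρ < r) (hρ : 0 ≤ ρ) (hB : 0 < B)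
    (hg0 : ∀ z ∈ Metric.ball c r, g z ≠ 0)
    (hb : ∀ z ∈ Metric.ball c r, ‖g z‖ ≤ Real.exp B * ‖g c‖) {a b : ℝ} (hab : a ≤ b)
    (hseg : ∀ t ∈ Icc a b, (t : ℂ) * I ∈ Metric.closedBall c ρ) :
    ∃ S : Finset ℝ, (∀ s ∈ S, a ≤ s ∧ s < b ∧ F (s * I) = 0) ∧
      ℓ * (b - a) ≤ Real.pi * (S.card + 2 + ∑ z ∈ Z, (m z : ℝ)) + 2 * (2 * B * ρ / (r - ρ)) := by
  obtain ⟨h, hc, hgh, hbd⟩ := logb hρr hρ hB hg hg0 hb
  obtain ⟨R, θ, hθc, hθ, hRθ⟩ := polar_prod Z m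
  obtain ⟨φ, hφ⟩ : ∃ φ : ℝ → ℝ, φ = fun t => ℓ * t + θ t + (h (t * I)).im + arg (g c) - arg ε / 2 :=
    ⟨_, rfl⟩
  have hball : ∀ t ∈ Icc a b, (t : ℂ) * I ∈ Metric.ball c r := fun t ht =>
    Metric.closedBall_subset_ball hρr (hseg t ht)
  have hφc : ContinuousOn φ (Icc a b) := by
    rw [hφ]
    have h1 : ContinuousOn (fun t : ℝ => h (t * I)) (Icc a b) :=
      hc.comp (by fun_prop) hball
    have h2 : ContinuousOn (fun t : ℝ => (h (t * I)).im) (Icc a b) :=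
      Complex.continuous_im.comp_continuousOn h1
    have h3 : ContinuousOn (fun t : ℝ => ℓ * t + θ t) (Icc a b) := by fun_prop
    exact ((h3.add h2).add continuousOn_const).sub continuousOn_const
  obtain ⟨S, hS, hSb⟩ := cross hab hφc
  refine ⟨S, ?_, ?_⟩
  · intro s hs
    obtain ⟨h1, h2, h3⟩ := hS s hs
    refine ⟨h1, h2, ?_⟩
    have hsm : s ∈ Icc a b := ⟨h1, h2.le⟩
    -- the value of `A`
    have hAv : A (s * I) = ((R s * ‖g c‖ * Real.exp (h (s * I)).re : ℝ) : ℂ) *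
        cexp (((φ s + arg ε / 2 : ℝ) : ℂ) * I) := by
      rw [hA, hfac, hRθ, hgh _ (hball s hsm), hφ]
      have e1 : g c = (‖g c‖ : ℂ) * cexp (arg (g c) * I) := (Complex.norm_mul_exp_arg_mul_I _).symm
      have e2 : cexp (h (s * I)) = ((Real.exp (h (s * I)).re : ℝ) : ℂ) * cexp ((h (s * I)).im * I) := by
        rw [Complex.ofReal_exp, ← Complex.exp_add, Complex.re_add_im]
      have e3 : cexp (((ℓ * s + θ s + (h (s * I)).im + arg (g c) - arg ε / 2 + arg ε / 2 : ℝ) : ℂ) * I) =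
          cexp (ℓ * (s * I)) * cexp ((θ s : ℂ) * I) * cexp ((h (s * I)).im * I) * cexp (arg (g c) * I) := by
        rw [← Complex.exp_add, ← Complex.exp_add, ← Complex.exp_add]
        congr 1
        push_cast
        ring
      simp only
      rw [e3, e2]
      nth_rewrite 1 [e1]
      push_cast
      ring
    have hεv : ε = cexp (((arg ε : ℝ) : ℂ) * I) := by
      have := Complex.norm_mul_exp_arg_mul_I ε
      rw [hε, Complex.ofReal_one, one_mul] at this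
      exact this.symm
    rw [hF, hAv, map_mul, Complex.conj_ofReal, ← Complex.exp_conj, map_mul, Complex.conj_ofReal,
      Complex.conj_I]
    have e4 : cexp (((φ s + arg ε / 2 : ℝ) : ℂ) * I) = cexp ((φ s : ℂ) * I) * cexp ((arg ε / 2 : ℝ) * I) := by
      rw [← Complex.exp_add]; congr 1; push_cast; ring
    have e5 : ε * cexp (((φ s + arg ε / 2 : ℝ) : ℂ) * -I) =
        cexp (-(φ s : ℂ) * I) * cexp ((arg ε / 2 : ℝ) * I) := by
      nth_rewrite 1 [hεv]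
      rw [← Complex.exp_add, ← Complex.exp_add]; congr 1; push_cast; ring
    have e6 : cexp ((φ s : ℂ) * I) + cexp (-(φ s : ℂ) * I) = 0 := by
      have h4 := Complex.two_cos (φ s : ℂ)
      rw [← h4, ← Complex.ofReal_cos, h3]
      simp
    calc ((R s * ‖g c‖ * Real.exp (h (s * I)).re : ℝ) : ℂ) * cexp (((φ s + arg ε / 2 : ℝ) : ℂ) * I) +
          ε * (((R s * ‖g c‖ * Real.exp (h (s * I)).re : ℝ) : ℂ) *
            cexp (((φ s + arg ε / 2 : ℝ) : ℂ) * -I))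
        = ((R s * ‖g c‖ * Real.exp (h (s * I)).re : ℝ) : ℂ) * (cexp (((φ s + arg ε / 2 : ℝ) : ℂ) * I) +
          ε * cexp (((φ s + arg ε / 2 : ℝ) : ℂ) * -I)) := by ring
      _ = ((R s * ‖g c‖ * Real.exp (h (s * I)).re : ℝ) : ℂ) *
          ((cexp ((φ s : ℂ) * I) + cexp (-(φ s : ℂ) * I)) * cexp ((arg ε / 2 : ℝ) * I)) := by
          rw [e4, e5]; ring
      _ = 0 := by rw [e6]; ring
  · have h1 := hθ b a
    have h2 := hbd _ (hseg a ⟨le_rfl, hab⟩)
    have h3 := hbd _ (hseg b ⟨hab, le_rfl⟩)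
    have h4 := (Complex.abs_im_le_norm _).trans h2
    have h5 := (Complex.abs_im_le_norm _).trans h3
    rw [abs_le] at h1 h4 h5
    have h6 : φ b - φ a = ℓ * (b - a) + (θ b - θ a) + ((h (b * I)).im - (h (a * I)).im) := by
      rw [hφ]; ring
    have h7 : ℓ * (b - a) ≤ (φ b - φ a) + Real.pi * ∑ z ∈ Z, (m z : ℝ) + 2 * (2 * B * ρ / (r - ρ)) := by
      rw [h6]; linarith [h1.1, h4.2, h5.1]
    refine h7.trans ?_
    linarith [hSb]

/-- zeros on a short segment, from bounds of `A` -/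
theorem seg2 {Y δ : ℝ} (hY : 0 < Y) (hδ : 0 < δ) (hδ1 : δ ≤ 1) : ∃ C : ℝ, 0 < C ∧
    ∀ (A F : ℂ → ℂ) (ε : ℂ) (ℓ κ H y a b : ℝ), Differentiable ℂ A → ‖ε‖ = 1 → 0 ≤ ℓ → 0 ≤ κ → 0 < H →
      (∀ t : ℝ, F (t * I) = A (t * I) + ε * conj (A (t * I))) →
      (∀ u : ℂ, -δ ≤ u.re → u.re ≤ 2 * Y + 1 → |u.im - y| ≤ Y + 1 →
        ‖A u‖ ≤ H * Real.exp (ℓ * u.re + κ * ℓ)) →
      H * Real.exp (ℓ * Y - κ * ℓ) ≤ ‖A (Y + y * I)‖ → y - δ / 4 ≤ a → a ≤ b → b ≤ y + δ / 4 →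
      ∃ S : Finset ℝ, (∀ s ∈ S, a ≤ s ∧ s < b ∧ F (s * I) = 0) ∧
        ℓ * (b - a) ≤ Real.pi * S.card + C * (κ * ℓ + 1) := by
  obtain ⟨R0, hR0⟩ : ∃ R0 : ℝ, R0 = Y + δ := ⟨_, rfl⟩
  obtain ⟨r1, hr1⟩ : ∃ r1 : ℝ, r1 = Y + δ / 2 := ⟨_, rfl⟩
  obtain ⟨ρ, hρ⟩ : ∃ ρ : ℝ, ρ = Y + δ / 4 := ⟨_, rfl⟩
  have hr1p : 0 < r1 := by rw [hr1]; linarith
  have hq : 1 < R0 / r1 := by rw [one_lt_div hr1p]; linarith
  have hL1 : 0 < Real.log (R0 / r1) := Real.log_pos hq
  have hq2 : 1 ≤ r1 / (R0 - r1) := by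
    rw [one_le_div (by linarith)]; linarith
  have hL2 : 0 ≤ Real.log (r1 / (R0 - r1)) := Real.log_nonneg hq2
  have hpi := Real.pi_pos
  obtain ⟨L1, hL1d⟩ : ∃ L1 : ℝ, L1 = Real.log (R0 / r1) := ⟨_, rfl⟩
  obtain ⟨L2, hL2d⟩ : ∃ L2 : ℝ, L2 = Real.log (r1 / (R0 - r1)) := ⟨_, rfl⟩
  rw [← hL1d] at hL1
  rw [← hL2d] at hL2
  obtain ⟨P, hP⟩ : ∃ P : ℝ, P = 4 * ρ / (r1 - ρ) := ⟨_, rfl⟩
  have hP0 : 0 ≤ P := by rw [hP]; apply div_nonneg; rw [hρ]; linarith; linarith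
  refine ⟨Real.pi * (2 + 2 / L1) + P * (2 + 2 * L2 / L1 + 1), by positivity, ?_⟩
  intro A F ε ℓ κ H y a b hA hε hℓ hκ hH hF hup hlow hya hab hby
  obtain ⟨c, hc⟩ : ∃ c : ℂ, c = Y + y * I := ⟨_, rfl⟩
  have hcre : c.re = Y := by rw [hc]; simp
  have hcim : c.im = y := by rw [hc]; simp
  obtain ⟨A1, hA1⟩ : ∃ A1 : ℂ → ℂ, A1 = fun u => A u * cexp (-(ℓ * u)) := ⟨_, rfl⟩
  have hA1d : Differentiable ℂ A1 := by rw [hA1]; fun_prop
  have hAA : ∀ u, A u = cexp (ℓ * u) * A1 u := by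
    intro u
    rw [hA1]
    simp only
    rw [mul_left_comm, ← Complex.exp_add, add_neg_cancel, Complex.exp_zero, mul_one]
  have hA1n : ∀ u, ‖A1 u‖ = ‖A u‖ * Real.exp (-(ℓ * u.re)) := by
    intro u
    rw [hA1]
    simp only
    rw [norm_mul, Complex.norm_exp]
    congr 2
    simp
  have hM : ∀ u ∈ Metric.closedBall c R0, ‖A1 u‖ ≤ H * Real.exp (κ * ℓ) := by
    intro u hu
    rw [Metric.mem_closedBall, dist_eq_norm] at hu
    have h1 : |(u - c).re| ≤ R0 := (Complex.abs_re_le_norm _).trans hu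
    have h2 : |(u - c).im| ≤ R0 := (Complex.abs_im_le_norm _).trans hu
    rw [Complex.sub_re, hcre, abs_le] at h1
    rw [Complex.sub_im, hcim] at h2
    have h4 := hup u (by linarith [h1.1]) (by linarith [h1.2]) (by linarith)
    rw [hA1n]
    calc ‖A u‖ * Real.exp (-(ℓ * u.re))
        ≤ H * Real.exp (ℓ * u.re + κ * ℓ) * Real.exp (-(ℓ * u.re)) :=
          mul_le_mul_of_nonneg_right h4 (Real.exp_pos _).le
      _ = H * Real.exp (κ * ℓ) := by
          rw [mul_assoc, ← Real.exp_add]; congr 2; ring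
  have hc1 : H * Real.exp (-(κ * ℓ)) ≤ ‖A1 c‖ := by
    rw [hA1n, hcre]
    rw [← hc] at hlow
    calc H * Real.exp (-(κ * ℓ)) = H * Real.exp (ℓ * Y - κ * ℓ) * Real.exp (-(ℓ * Y)) := by
          rw [mul_assoc, ← Real.exp_add]; congr 2; ring
      _ ≤ _ := mul_le_mul_of_nonneg_right hlow (Real.exp_pos _).le
  have hc0 : A1 c ≠ 0 := by
    intro h
    rw [h, norm_zero] at hc1
    have := mul_pos hH (Real.exp_pos (-(κ * ℓ)))
    linarith
  -- the zeros
  have hfin := Pool.Agent.W186.LH.zfin hA1d ⟨c, hc0⟩ (isCompact_closedBall c r1)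
  obtain ⟨Z, hZ⟩ : ∃ Z : Finset ℂ, Z = hfin.toFinset := ⟨_, rfl⟩
  have hZm : ∀ z, z ∈ Z ↔ z ∈ Metric.closedBall c r1 ∧ A1 z = 0 := by
    intro z
    rw [hZ, Set.Finite.mem_toFinset]
    rfl
  obtain ⟨g, hg, hgZ, hfac⟩ := Pool.Agent.W186.LH.fac Z hA1d ⟨c, hc0⟩
  obtain ⟨m, hm⟩ : ∃ m : ℂ → ℕ, m = fun z => analyticOrderNatAt A1 z := ⟨_, rfl⟩
  have hfac' : ∀ u, A1 u = (∏ z ∈ Z, (u - z) ^ (m z)) * g u := by rw [hm]; exact hfac
  have hg0 : ∀ z ∈ Metric.closedBall c r1, g z ≠ 0 := by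
    intro z hz h0
    have h1 : A1 z = 0 := by rw [hfac', h0, mul_zero]
    exact hgZ z ((hZm z).2 ⟨hz, h1⟩) h0
  obtain ⟨k, hk⟩ : ∃ k : ℕ, k = ∑ z ∈ Z, m z := ⟨_, rfl⟩
  have hj := Pool.Agent.W186.LH.jc hA1d hr1p (by linarith : r1 ≤ R0)
    (fun u hu => hM u (Metric.sphere_subset_closedBall hu)) hc0 Z (fun z hz => ((hZm z).1 hz).1)
  have hkL : (k : ℝ) * L1 ≤ 2 * κ * ℓ := by
    have hk' : (∑ z ∈ Z, analyticOrderNatAt A1 z) = k := by rw [hk, hm]
    rw [hk'] at hj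
    have h6 : (R0 / r1) ^ k * (H * Real.exp (-(κ * ℓ))) ≤ H * Real.exp (κ * ℓ) :=
      (mul_le_mul_of_nonneg_left hc1 (by positivity)).trans hj
    have h7 : (R0 / r1) ^ k ≤ Real.exp (2 * κ * ℓ) := by
      have h8 : (R0 / r1) ^ k * (H * Real.exp (-(κ * ℓ))) ≤
          Real.exp (2 * κ * ℓ) * (H * Real.exp (-(κ * ℓ))) := by
        refine h6.trans (le_of_eq ?_)
        rw [mul_left_comm, ← Real.exp_add]
        congr 2; ring
      exact le_of_mul_le_mul_right h8 (mul_pos hH (Real.exp_pos _))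
    have h9 := Real.log_le_log (by positivity) h7
    rw [Real.log_exp, Real.log_pow, ← hL1d] at h9
    exact h9
  have hk0 : (0 : ℝ) ≤ k := Nat.cast_nonneg k
  -- the bound for `g`
  obtain ⟨B, hB⟩ : ∃ B : ℝ, B = 2 * κ * ℓ + k * L2 + 1 := ⟨_, rfl⟩
  have hκℓ : 0 ≤ κ * ℓ := mul_nonneg hκ hℓ
  have hBp : 0 < B := by
    rw [hB]
    have : 0 ≤ (k : ℝ) * L2 := mul_nonneg hk0 hL2
    linarith
  have hRr : 0 < R0 - r1 := by linarith
  have hprodlow : ∀ u ∈ Metric.sphere c R0, (R0 - r1) ^ k ≤ ‖∏ z ∈ Z, (u - z) ^ (m z)‖ := by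
    intro u hu
    rw [mem_sphere_iff_norm] at hu
    rw [norm_prod, hk, ← Finset.prod_pow_eq_pow_sum]
    refine Finset.prod_le_prod (fun z _ => by positivity) fun z hz => ?_
    rw [norm_pow]
    refine pow_le_pow_left₀ hRr.le ?_ _
    have h1 := ((hZm z).1 hz).1
    rw [Metric.mem_closedBall, dist_eq_norm] at h1
    have h2 : u - z = (u - c) - (z - c) := by ring
    rw [h2]
    have h3 := norm_sub_norm_le (u - c) (z - c)
    linarith
  have hprodup : ‖∏ z ∈ Z, (c - z) ^ (m z)‖ ≤ r1 ^ k := by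
    rw [norm_prod, hk, ← Finset.prod_pow_eq_pow_sum]
    refine Finset.prod_le_prod (fun z _ => norm_nonneg _) fun z hz => ?_
    rw [norm_pow]
    refine pow_le_pow_left₀ (norm_nonneg _) ?_ _
    have h1 := ((hZm z).1 hz).1
    rwa [Metric.mem_closedBall, dist_eq_norm, norm_sub_rev] at h1
  have hgc : H * Real.exp (-(κ * ℓ)) ≤ r1 ^ k * ‖g c‖ := by
    refine hc1.trans ?_
    rw [hfac', norm_mul]
    exact mul_le_mul_of_nonneg_right hprodup (norm_nonneg _)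
  have hgs : ∀ u ∈ Metric.sphere c R0, ‖g u‖ ≤ Real.exp B * ‖g c‖ := by
    intro u hu
    have h1 := hM u (Metric.sphere_subset_closedBall hu)
    rw [hfac', norm_mul] at h1
    have h2 := (mul_le_mul_of_nonneg_right (hprodlow u hu) (norm_nonneg (g u))).trans h1
    have h3 : (R0 - r1) ^ k * ‖g u‖ ≤ Real.exp (2 * κ * ℓ) * (r1 ^ k * ‖g c‖) := by
      refine h2.trans ?_
      have h4 : H * Real.exp (κ * ℓ) = Real.exp (2 * κ * ℓ) * (H * Real.exp (-(κ * ℓ))) := by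
        rw [mul_left_comm, ← Real.exp_add]
        congr 2; ring
      rw [h4]
      exact mul_le_mul_of_nonneg_left hgc (Real.exp_pos _).le
    have h5 : r1 ^ k = (R0 - r1) ^ k * Real.exp (k * L2) := by
      rw [hL2d, mul_comm (k : ℝ), Real.exp_mul, Real.exp_log (by positivity), Real.rpow_natCast,
        div_pow]
      field_simp
    rw [h5] at h3
    have h6 : (R0 - r1) ^ k * ‖g u‖ ≤
        (R0 - r1) ^ k * (Real.exp (2 * κ * ℓ + k * L2) * ‖g c‖) := by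
      refine h3.trans (le_of_eq ?_)
      rw [Real.exp_add]
      ring
    have h7 := le_of_mul_le_mul_left h6 (pow_pos hRr k)
    refine h7.trans ?_
    apply mul_le_mul_of_nonneg_right _ (norm_nonneg _)
    apply Real.exp_le_exp.2
    rw [hB]; linarith
  have hgb : ∀ u ∈ Metric.ball c r1, ‖g u‖ ≤ Real.exp B * ‖g c‖ := by
    intro u hu
    refine Complex.norm_le_of_forall_mem_frontier_norm_le (U := Metric.ball c R0) Metric.isBounded_ball
      hg.diffContOnCl ?_ (subset_closure (Metric.ball_subset_ball (by linarith) hu))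
    intro z hz
    rw [frontier_ball c (by linarith : R0 ≠ 0)] at hz
    exact hgs z hz
  have hρ0 : 0 ≤ ρ := by rw [hρ]; linarith
  have hsegb : ∀ t ∈ Icc a b, (t : ℂ) * I ∈ Metric.closedBall c ρ := by
    intro t ht
    rw [Metric.mem_closedBall, dist_eq_norm, Complex.norm_eq_sqrt_sq_add_sq, Real.sqrt_le_left hρ0,
      Complex.sub_re, Complex.sub_im, hcre, hcim]
    simp only [Complex.mul_re, Complex.ofReal_re, Complex.I_re, mul_zero, Complex.ofReal_im,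
      Complex.I_im, mul_one, sub_self, zero_sub, Complex.mul_im, zero_add, add_zero]
    have h1 : |t - y| ≤ δ / 4 := by
      rw [abs_le]; constructor <;> linarith [ht.1, ht.2]
    have h2 : (t - y) ^ 2 ≤ (δ / 4) ^ 2 := by
      rw [← sq_abs]; exact pow_le_pow_left₀ (abs_nonneg _) h1 2
    rw [hρ]
    nlinarith
  obtain ⟨S, hS, hSb⟩ := seg (A := A) (A1 := A1) (g := g) (ℓ := ℓ) (B := B) (ρ := ρ) (r := r1) (c := c)
    (ε := ε) (F := F) hε hF hAA hg hfac' (by linarith) hρ0 hBp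
    (fun z hz => hg0 z (Metric.ball_subset_closedBall hz)) hgb hab hsegb
  refine ⟨S, hS, hSb.trans ?_⟩
  have hkk : ∑ z ∈ Z, (m z : ℝ) = k := by rw [hk]; push_cast; rfl
  rw [hkk]
  have hkb : (k : ℝ) ≤ 2 / L1 * (κ * ℓ) := by
    rw [div_mul_eq_mul_div, le_div_iff₀ hL1]
    linarith
  have e1 : 2 * (2 * B * ρ / (r1 - ρ)) = P * B := by rw [hP]; ring
  rw [e1]
  have hBb : B ≤ (2 + 2 * L2 / L1 + 1) * (κ * ℓ + 1) := by
    have h1 : (k : ℝ) * L2 ≤ 2 / L1 * (κ * ℓ) * L2 := mul_le_mul_of_nonneg_right hkb hL2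
    have h2 : 2 / L1 * (κ * ℓ) * L2 = 2 * L2 / L1 * (κ * ℓ) := by ring
    have h3 : 0 ≤ 2 * L2 / L1 := by positivity
    rw [hB]
    nlinarith
  have h1 := mul_le_mul_of_nonneg_left hBb hP0
  have h2 : Real.pi * (S.card + 2 + k) ≤ Real.pi * S.card + Real.pi * (2 + 2 / L1) * (κ * ℓ + 1) := by
    have h3 : 0 ≤ 2 / L1 := by positivity
    have h4 : (2 + k : ℝ) ≤ (2 + 2 / L1) * (κ * ℓ + 1) := by nlinarith
    have h5 := mul_le_mul_of_nonneg_left h4 hpi.le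
    linarith
  linarith

end Pool.Agent.J4H1.LH
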