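import Mathlib

/-!
# Project LH, S_OFF, part 2: Jensen's formula with the weight of the line
-/

set_option autoImplicit false

open Complex MeasureTheory Filter Topology Set
open scoped ComplexConjugate

namespace Pool.Agent.J4H1.LH

/-- Jensen: weighted count of the zeros -/
lemma jen_w {F : ℂ → ℂ} (hF : Differentiable ℂ F) {c : ℂ} {R : ℝ} (hR : 0 < R) {U : ℂ → ℝ}
    (hU : Continuous U) (hUF : ∀ u ∈ Metric.sphere c R, Real.log ‖F u‖ ≤ U u) (hc : F c ≠ 0)
    (S : Finset ℂ) (hS : ∀ z ∈ S, z ∈ Metric.closedBall c R) :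
    ∑ z ∈ S, (analyticOrderNatAt F z : ℝ) * Real.log (R * ‖c - z‖⁻¹) + Real.log ‖F c‖ ≤
      Real.circleAverage U c R := by
  classical
  have habs : |R| = R := abs_of_pos hR
  have han : AnalyticOnNhd ℂ F (Metric.closedBall c |R|) := fun x _ => hF.analyticAt x
  have hj := AnalyticOnNhd.circleAverage_log_norm hR.ne' han hc
  have hmono : Real.circleAverage (fun u => Real.log ‖F u‖) c R ≤ Real.circleAverage U c R := by
    apply Real.circleAverage_mono
    · exact (han.mono Metric.sphere_subset_closedBall).meromorphicOn.circleIntegrable_log_norm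
    · exact hU.continuousOn.circleIntegrable hR.le
    · intro x hx
      rw [habs] at hx
      exact hUF x hx
  rw [hj] at hmono
  refine le_trans ?_ hmono
  apply add_le_add_left
  have hfin := (MeromorphicOn.divisor F (Metric.closedBall c |R|)).finiteSupport
    (isCompact_closedBall c |R|)
  obtain ⟨T, hT⟩ : ∃ T : Finset ℂ, T = hfin.toFinset ∪ S := ⟨_, rfl⟩
  have hsupp : (Function.support fun u => ((MeromorphicOn.divisor F (Metric.closedBall c |R|) u : ℤ) : ℝ) *
      Real.log (R * ‖c - u‖⁻¹)) ⊆ T := by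
    intro u hu
    rw [Function.mem_support] at hu
    rw [hT, Finset.coe_union]
    left
    rw [Set.Finite.coe_toFinset, Function.mem_support]
    intro h0
    apply hu
    rw [h0]
    simp
  rw [finsum_eq_sum_of_support_subset _ hsupp]
  have hval : ∀ z ∈ Metric.closedBall c |R|,
      ((MeromorphicOn.divisor F (Metric.closedBall c |R|) z : ℤ) : ℝ) = analyticOrderNatAt F z := by
    intro z hz
    rw [MeromorphicOn.AnalyticOnNhd.divisor_apply han hz]
    unfold analyticOrderNatAt
    cases hn : analyticOrderAt F z with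
    | top => simp
    | coe n => simp
  have hlog : ∀ z ∈ Metric.closedBall c |R|, 0 ≤ Real.log (R * ‖c - z‖⁻¹) := by
    intro z hz
    rw [habs, Metric.mem_closedBall, dist_eq_norm, norm_sub_rev] at hz
    rcases eq_or_lt_of_le (norm_nonneg (c - z)) with h | h
    · rw [← h]; simp
    · apply Real.log_nonneg
      rw [← div_eq_mul_inv, one_le_div h]
      exact hz
  calc ∑ z ∈ S, (analyticOrderNatAt F z : ℝ) * Real.log (R * ‖c - z‖⁻¹)
      = ∑ z ∈ S, ((MeromorphicOn.divisor F (Metric.closedBall c |R|) z : ℤ) : ℝ) *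
          Real.log (R * ‖c - z‖⁻¹) := by
        refine Finset.sum_congr rfl fun z hz => ?_
        rw [hval z (by rw [habs]; exact hS z hz)]
    _ ≤ _ := by
        apply Finset.sum_le_sum_of_subset_of_nonneg
        · rw [hT]; exact Finset.subset_union_right
        · intro z _ _
          by_cases hz : z ∈ Metric.closedBall c |R|
          · rw [hval z hz]
            exact mul_nonneg (Nat.cast_nonneg _) (hlog z hz)
          · have : MeromorphicOn.divisor F (Metric.closedBall c |R|) z = 0 :=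
              Function.locallyFinsuppWithin.apply_eq_zero_of_notMem _ hz
            rw [this]
            simp

/-- the weight on the line -/
noncomputable def wt (Y R t : ℝ) : ℝ := Real.log R - Real.log (Y ^ 2 + t ^ 2) / 2

lemma wt_eq {Y R : ℝ} (hY : 0 < Y) (hR : 0 < R) (t : ℝ) :
    Real.log (R * ‖(Y : ℂ) - (t : ℂ) * I‖⁻¹) = wt Y R t := by
  have h0 : 0 < Y ^ 2 + t ^ 2 := by positivity
  have h1 : ‖(Y : ℂ) - (t : ℂ) * I‖ = Real.sqrt (Y ^ 2 + t ^ 2) := by
    rw [Complex.norm_eq_sqrt_sq_add_sq]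
    simp
  have h2 : 0 < Real.sqrt (Y ^ 2 + t ^ 2) := Real.sqrt_pos.2 h0
  rw [h1, Real.log_mul hR.ne' (inv_ne_zero h2.ne'), Real.log_inv, Real.log_sqrt h0.le, wt]
  ring

lemma wt_cont {Y R : ℝ} (hY : 0 < Y) : Continuous (wt Y R) := by
  unfold wt
  have : ∀ t : ℝ, Y ^ 2 + t ^ 2 ≠ 0 := fun t => by positivity
  fun_prop (disch := assumption)

lemma wt_int {Y R h : ℝ} (hY : 0 < Y) (hh : Y ^ 2 + h ^ 2 = R ^ 2) :
    ∫ t in (-h)..h, wt Y R t = 2 * (h - Y * Real.arctan (h / Y)) := by
  have hd : ∀ t ∈ uIcc (-h) h, HasDerivAt (fun t : ℝ => t * Real.log R - t * (Real.log (Y ^ 2 + t ^ 2) / 2) +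
      t - Y * Real.arctan (t / Y)) (wt Y R t) t := by
    intro t _
    have h0 : Y ^ 2 + t ^ 2 ≠ 0 := by positivity
    have h1 : HasDerivAt (fun t : ℝ => Y ^ 2 + t ^ 2) (2 * t) t := by
      simpa using ((hasDerivAt_id t).pow 2).const_add (Y ^ 2)
    have h2 := h1.log h0
    have h3 : HasDerivAt (fun t : ℝ => t / Y) (1 / Y) t := (hasDerivAt_id t).div_const Y
    have h4 := (h3.arctan).const_mul Y
    have h5 := (((hasDerivAt_id t).mul_const (Real.log R)).sub
      ((hasDerivAt_id t).mul (h2.div_const 2))).add (hasDerivAt_id t)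
    have h6 := h5.sub h4
    refine h6.congr_deriv ?_
    unfold wt
    simp only [id]
    have h7 : 1 + (t / Y) ^ 2 ≠ 0 := by positivity
    field_simp
    ring
  rw [intervalIntegral.integral_eq_sub_of_hasDerivAt hd ((wt_cont hY).intervalIntegrable _ _)]
  have e1 : Real.log (Y ^ 2 + h ^ 2) = 2 * Real.log R := by rw [hh, Real.log_pow]; norm_num
  have e2 : Real.log (Y ^ 2 + (-h) ^ 2) = 2 * Real.log R := by rw [neg_sq, e1]
  rw [e1, e2, neg_div, Real.arctan_neg]
  ring

/-- the circle average of `|Re u|` -/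
lemma avg_re {Y R h : ℝ} (hY : 0 < Y) (hR : 0 < R) (hh0 : 0 ≤ h) (hh : Y ^ 2 + h ^ 2 = R ^ 2) :
    Real.circleAverage (fun u : ℂ => |u.re|) (Y : ℂ) R = Y + 2 / Real.pi * (h - Y * Real.arctan (h / Y)) := by
  have hpi := Real.pi_pos
  have hYR : Y ≤ R := by nlinarith [sq_nonneg h]
  obtain ⟨β, hβ⟩ : ∃ β : ℝ, β = Real.arccos (Y / R) := ⟨_, rfl⟩
  have hYR1 : Y / R ≤ 1 := by rw [div_le_one hR]; exact hYR
  have hYR0 : 0 < Y / R := by positivity
  have hcosβ : Real.cos β = Y / R := by rw [hβ, Real.cos_arccos (by linarith) hYR1]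
  have hsinβ : Real.sin β = h / R := by
    rw [hβ, Real.sin_arccos]
    have : 1 - (Y / R) ^ 2 = (h / R) ^ 2 := by
      field_simp
      linarith
    rw [this, Real.sqrt_sq (by positivity)]
  have hatan : Real.arctan (h / Y) = β := by
    rw [hβ, Real.arccos_eq_arctan hYR0]
    have : 1 - (Y / R) ^ 2 = (h / R) ^ 2 := by
      field_simp
      linarith
    rw [this, Real.sqrt_sq (by positivity)]
    congr 1
    field_simp
  have hβ0 : 0 ≤ β := by rw [hβ]; exact Real.arccos_nonneg _
  have hβ2 : β ≤ Real.pi / 2 := by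
    rw [hβ, Real.arccos_le_pi_div_two]; exact hYR0.le
  rw [hatan, Real.circleAverage]
  have hint : ∀ a b : ℝ, IntervalIntegrable (fun θ : ℝ => |Y + R * Real.cos θ|) volume a b := fun a b =>
    Continuous.intervalIntegrable (by fun_prop) _ _
  have hfun : (fun θ : ℝ => |(circleMap (Y : ℂ) R θ).re|) = fun θ : ℝ => |Y + R * Real.cos θ| := by
    funext θ
    congr 1
    rw [circleMap]
    simp [Complex.exp_ofReal_mul_I_re]
  have hval : ∀ a b : ℝ, ∫ θ in a..b, (Y + R * Real.cos θ) = Y * (b - a) + R * (Real.sin b - Real.sin a) := by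
    intro a b
    rw [intervalIntegral.integral_add (by simp) (Continuous.intervalIntegrable (by fun_prop) _ _),
      intervalIntegral.integral_const, intervalIntegral.integral_const_mul, integral_cos, smul_eq_mul]
    ring
  have hRne := hR.ne'
  have i1 : ∫ θ in (0 : ℝ)..(Real.pi - β), |Y + R * Real.cos θ| = Y * (Real.pi - β) + h := by
    have h1 : ∫ θ in (0 : ℝ)..(Real.pi - β), |Y + R * Real.cos θ| =
        ∫ θ in (0 : ℝ)..(Real.pi - β), (Y + R * Real.cos θ) := by
      apply intervalIntegral.integral_congr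
      intro θ hθ
      rw [uIcc_of_le (by linarith)] at hθ
      apply abs_of_nonneg
      have h2 : Real.cos (Real.pi - β) ≤ Real.cos θ :=
        Real.cos_le_cos_of_nonneg_of_le_pi hθ.1 (by linarith) hθ.2
      rw [Real.cos_pi_sub, hcosβ] at h2
      have h3 := mul_le_mul_of_nonneg_left h2 hR.le
      have h4 : R * -(Y / R) = -Y := by field_simp
      rw [h4] at h3
      linarith
    rw [h1, hval, Real.sin_pi_sub, hsinβ, Real.sin_zero]
    field_simp
    ring
  have i2 : ∫ θ in (Real.pi - β)..(Real.pi + β), |Y + R * Real.cos θ| = -(2 * Y * β) + 2 * h := by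
    have h1 : ∫ θ in (Real.pi - β)..(Real.pi + β), |Y + R * Real.cos θ| =
        ∫ θ in (Real.pi - β)..(Real.pi + β), -(Y + R * Real.cos θ) := by
      apply intervalIntegral.integral_congr
      intro θ hθ
      rw [uIcc_of_le (by linarith)] at hθ
      apply abs_of_nonpos
      have h2 : Real.cos β ≤ Real.cos (θ - Real.pi) := by
        rw [← Real.cos_abs (θ - Real.pi)]
        apply Real.cos_le_cos_of_nonneg_of_le_pi (abs_nonneg _) (by linarith)
        rw [abs_le]
        constructor <;> linarith [hθ.1, hθ.2]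
      rw [Real.cos_sub_pi, hcosβ] at h2
      have h3 := mul_le_mul_of_nonneg_left h2 hR.le
      have h4 : R * (Y / R) = Y := by field_simp
      rw [h4] at h3
      linarith
    rw [h1, intervalIntegral.integral_neg, hval, Real.sin_pi_sub, add_comm Real.pi β, Real.sin_add_pi,
      hsinβ]
    field_simp
    ring
  have i3 : ∫ θ in (Real.pi + β)..(2 * Real.pi), |Y + R * Real.cos θ| = Y * (Real.pi - β) + h := by
    have h1 : ∫ θ in (Real.pi + β)..(2 * Real.pi), |Y + R * Real.cos θ| =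
        ∫ θ in (Real.pi + β)..(2 * Real.pi), (Y + R * Real.cos θ) := by
      apply intervalIntegral.integral_congr
      intro θ hθ
      rw [uIcc_of_le (by linarith)] at hθ
      apply abs_of_nonneg
      have h2 : Real.cos (Real.pi - β) ≤ Real.cos (2 * Real.pi - θ) :=
        Real.cos_le_cos_of_nonneg_of_le_pi (by linarith [hθ.2]) (by linarith) (by linarith [hθ.1])
      rw [Real.cos_pi_sub, hcosβ, Real.cos_two_pi_sub] at h2
      have h3 := mul_le_mul_of_nonneg_left h2 hR.le
      have h4 : R * -(Y / R) = -Y := by field_simp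
      rw [h4] at h3
      linarith
    rw [h1, hval, Real.sin_two_pi, add_comm Real.pi β, Real.sin_add_pi, hsinβ]
    field_simp
    ring
  rw [hfun]
  rw [← intervalIntegral.integral_add_adjacent_intervals (hint 0 (Real.pi - β)) (hint _ _),
    ← intervalIntegral.integral_add_adjacent_intervals (hint (Real.pi - β) (Real.pi + β)) (hint _ _),
    i1, i2, i3, smul_eq_mul]
  field_simp
  ring

/-- the weighted count of the zeros is at most the one of the line -/
theorem jen_line {F : ℂ → ℂ} (hF : Differentiable ℂ F) {Y R h ℓ κ H : ℝ} (hY : 0 < Y) (hR : 0 < R)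
    (hh0 : 0 ≤ h) (hh : Y ^ 2 + h ^ 2 = R ^ 2) (hℓ : 0 ≤ ℓ) (hκ : 0 ≤ κ) (hH : 0 < H)
    (hup : ∀ u ∈ Metric.sphere (Y : ℂ) R, ‖F u‖ ≤ H * Real.exp (ℓ * |u.re| + κ * ℓ))
    (hlow : H * Real.exp (ℓ * Y - κ * ℓ) ≤ ‖F Y‖)
    (S : Finset ℂ) (hS : ∀ z ∈ S, z ∈ Metric.closedBall (Y : ℂ) R) :
    ∑ z ∈ S, (analyticOrderNatAt F z : ℝ) * Real.log (R * ‖(Y : ℂ) - z‖⁻¹) ≤
      ℓ / Real.pi * (∫ t in (-h)..h, wt Y R t) + 2 * κ * ℓ := by
  have hFY : F Y ≠ 0 := by
    intro h0
    rw [h0, norm_zero] at hlow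
    have := mul_pos hH (Real.exp_pos (ℓ * Y - κ * ℓ))
    linarith
  have hκℓ : 0 ≤ κ * ℓ := mul_nonneg hκ hℓ
  obtain ⟨F1, hF1⟩ : ∃ F1 : ℂ → ℂ, F1 = fun u => ((H⁻¹ : ℝ) : ℂ) * F u := ⟨_, rfl⟩
  have hF1d : Differentiable ℂ F1 := by rw [hF1]; fun_prop
  have hF1n : ∀ u, ‖F1 u‖ = H⁻¹ * ‖F u‖ := by
    intro u
    rw [hF1]
    simp only
    rw [norm_mul, Complex.norm_real, Real.norm_eq_abs, abs_of_pos (inv_pos.2 hH)]
  have hord : ∀ z, analyticOrderNatAt F1 z = analyticOrderNatAt F z := by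
    intro z
    have h1 : analyticOrderAt F1 z = analyticOrderAt F z := by
      have h2 : F1 = (fun _ => ((H⁻¹ : ℝ) : ℂ)) * F := by rw [hF1]; rfl
      rw [h2, analyticOrderAt_mul analyticAt_const (hF.analyticAt z)]
      have h3 : analyticOrderAt (fun _ : ℂ => ((H⁻¹ : ℝ) : ℂ)) z = 0 := by
        rw [analyticAt_const.analyticOrderAt_eq_zero]
        exact_mod_cast (inv_pos.2 hH).ne'
      rw [h3, zero_add]
    unfold analyticOrderNatAt
    rw [h1]
  have h1 := jen_w hF1d hR (c := (Y : ℂ)) (U := fun u : ℂ => ℓ * |u.re| + κ * ℓ) (by fun_prop)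
    (by
      intro u hu
      have h2 := hup u hu
      have h3 : ‖F1 u‖ ≤ Real.exp (ℓ * |u.re| + κ * ℓ) := by
        rw [hF1n, inv_mul_le_iff₀ hH]
        exact h2
      rcases eq_or_lt_of_le (norm_nonneg (F1 u)) with h | h
      · rw [← h, Real.log_zero]; positivity
      · have := Real.log_le_log h h3
        rwa [Real.log_exp] at this)
    (by
      intro h0
      apply hFY
      rw [hF1] at h0
      simp only at h0
      rcases mul_eq_zero.1 h0 with h | h
      · exact absurd h (by exact_mod_cast (inv_pos.2 hH).ne')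
      · exact h) S hS
  have h2 : Real.circleAverage (fun u : ℂ => ℓ * |u.re| + κ * ℓ) (Y : ℂ) R =
      ℓ * Real.circleAverage (fun u : ℂ => |u.re|) (Y : ℂ) R + κ * ℓ := by
    have h3 : (fun u : ℂ => ℓ * |u.re| + κ * ℓ) = (ℓ • fun u : ℂ => |u.re|) + fun _ : ℂ => κ * ℓ := by
      funext u
      simp
    rw [h3, Real.circleAverage_add, Real.circleAverage_smul, Real.circleAverage_const, smul_eq_mul]
    · apply ContinuousOn.circleIntegrable hR.le
      apply Continuous.continuousOn
      fun_prop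
    · exact circleIntegrable_const _ _ _
  rw [h2, avg_re hY hR hh0 hh] at h1
  rw [wt_int hY hh]
  have h3 : ℓ * Y - κ * ℓ ≤ Real.log ‖F1 Y‖ := by
    have h4 : Real.exp (ℓ * Y - κ * ℓ) ≤ ‖F1 Y‖ := by
      rw [hF1n, le_inv_mul_iff₀ hH]
      exact hlow
    have h5 := Real.log_le_log (Real.exp_pos _) h4
    rwa [Real.log_exp] at h5
  have h4 : ∑ z ∈ S, (analyticOrderNatAt F1 z : ℝ) * Real.log (R * ‖(Y : ℂ) - z‖⁻¹) =
      ∑ z ∈ S, (analyticOrderNatAt F z : ℝ) * Real.log (R * ‖(Y : ℂ) - z‖⁻¹) :=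
    Finset.sum_congr rfl fun z _ => by rw [hord z]
  rw [h4] at h1
  have h5 : ℓ / Real.pi * (2 * (h - Y * Real.arctan (h / Y))) =
      ℓ * (2 / Real.pi * (h - Y * Real.arctan (h / Y))) := by ring
  rw [h5]
  linarith

end Pool.Agent.J4H1.LH
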