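import Pool.Agent.J4H1.LH.Off1
import Pool.Agent.J4H1.LH.Off2

/-!
# Project LH, S_OFF, part 3: the abstract counting theorem
-/

set_option autoImplicit false

open Complex MeasureTheory Filter Topology Set
open scoped ComplexConjugate

namespace Pool.Agent.J4H1.LH

open Pool.Agent.W169.HF (Cnt)

lemma wt_lip {Y R : ℝ} (hY : 1 ≤ Y) (s t : ℝ) : wt Y R t ≤ wt Y R s + |t - s| := by
  have hd : ∀ x ∈ (univ : Set ℝ), HasDerivWithinAt (wt Y R) (-(x / (Y ^ 2 + x ^ 2))) univ x := by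
    intro x _
    have h0 : Y ^ 2 + x ^ 2 ≠ 0 := by positivity
    have h1 : HasDerivAt (fun t : ℝ => Y ^ 2 + t ^ 2) (2 * x) x := by
      simpa using ((hasDerivAt_id x).pow 2).const_add (Y ^ 2)
    have h2 := ((h1.log h0).div_const 2).const_sub (Real.log R)
    refine (h2.congr_deriv ?_).hasDerivWithinAt
    ring
  have hb : ∀ x ∈ (univ : Set ℝ), ‖-(x / (Y ^ 2 + x ^ 2))‖ ≤ 1 := by
    intro x _
    have h0 : 0 < Y ^ 2 + x ^ 2 := by positivity
    rw [norm_neg, norm_div, Real.norm_eq_abs, Real.norm_eq_abs, abs_of_pos h0, div_le_one h0]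
    have h1 : |x| ^ 2 = x ^ 2 := sq_abs x
    nlinarith [sq_nonneg (|x| - 1)]
  have h := convex_univ.norm_image_sub_le_of_norm_hasDerivWithin_le hd hb (mem_univ s) (mem_univ t)
  rw [Real.norm_eq_abs, Real.norm_eq_abs, one_mul] at h
  have := le_abs_self (wt Y R t - wt Y R s)
  linarith

lemma wt_nonneg {Y R h t : ℝ} (hY : 0 < Y) (hh : Y ^ 2 + h ^ 2 = R ^ 2) (ht : |t| ≤ h) :
    0 ≤ wt Y R t := by
  have h1 : t ^ 2 ≤ h ^ 2 := by rw [← sq_abs]; exact pow_le_pow_left₀ (abs_nonneg _) ht 2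
  have h2 : Real.log (Y ^ 2 + t ^ 2) ≤ Real.log (R ^ 2) :=
    Real.log_le_log (by positivity) (by linarith)
  rw [Real.log_pow] at h2
  push_cast at h2
  unfold wt
  linarith

lemma wt_le {Y R : ℝ} (hY : 1 ≤ Y) (t : ℝ) : wt Y R t ≤ Real.log R := by
  have h1 : 0 ≤ Real.log (Y ^ 2 + t ^ 2) := by
    apply Real.log_nonneg
    nlinarith [sq_nonneg t]
  unfold wt
  linarith

/-- one segment -/
lemma seg_sum {Y R a d ℓ c wm : ℝ} (hY : 1 ≤ Y) (hd : 0 < d) (hℓ : 0 ≤ ℓ) (hc : 0 ≤ c) (hwm : 0 ≤ wm)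
    (hw : ∀ t, wt Y R t ≤ wm) {S : Finset ℝ} (hS : ∀ s ∈ S, a ≤ s ∧ s < a + d ∧ 0 ≤ wt Y R s)
    (hcard : ℓ * d ≤ Real.pi * S.card + c) :
    ℓ / Real.pi * (∫ t in a..(a + d), wt Y R t) ≤
      ∑ s ∈ S, wt Y R s + (ℓ * d ^ 2 / Real.pi + c / Real.pi * wm) := by
  have hpi := Real.pi_pos
  have hY0 : 0 < Y := by linarith
  obtain ⟨I, hI⟩ : ∃ I : ℝ, I = ∫ t in a..(a + d), wt Y R t := ⟨_, rfl⟩
  rw [← hI]
  have hcont : ∀ a b : ℝ, IntervalIntegrable (wt Y R) volume a b := fun a b =>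
    (wt_cont hY0).intervalIntegrable _ _
  have hub : ∀ M : ℝ, (∀ t ∈ Icc a (a + d), wt Y R t ≤ M) → I ≤ d * M := by
    intro M hM
    have h1 := intervalIntegral.integral_mono_on (by linarith : a ≤ a + d) (hcont a (a + d))
      (intervalIntegrable_const (μ := volume) (c := M)) hM
    rw [intervalIntegral.integral_const, smul_eq_mul] at h1
    rw [hI]
    linarith
  obtain ⟨M, hM⟩ : ∃ M : ℝ, M = I / d := ⟨_, rfl⟩
  have hIM : I = d * M := by rw [hM]; field_simp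
  have hMs : ∀ s ∈ S, M - d ≤ wt Y R s := by
    intro s hs
    obtain ⟨h1, h2, -⟩ := hS s hs
    have h3 := hub (wt Y R s + d) (by
      intro t ht
      refine (wt_lip hY s t).trans ?_
      have : |t - s| ≤ d := by rw [abs_le]; constructor <;> linarith [ht.1, ht.2]
      linarith)
    rw [hIM] at h3
    have := le_of_mul_le_mul_left h3 hd
    linarith
  have hMw : M ≤ wm := by
    have h3 := hub wm (fun t _ => hw t)
    rw [hIM] at h3
    exact le_of_mul_le_mul_left h3 hd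
  have hsum0 : 0 ≤ ∑ s ∈ S, wt Y R s := Finset.sum_nonneg fun s hs => (hS s hs).2.2
  have e1 : ℓ / Real.pi * I = ℓ * d / Real.pi * (M - d) + ℓ * d ^ 2 / Real.pi := by
    rw [hIM]; ring
  rw [e1]
  have hcw : 0 ≤ c / Real.pi * wm := by positivity
  rcases le_total 0 (M - d) with h | h
  · have h1 : (S.card : ℝ) * (M - d) ≤ ∑ s ∈ S, wt Y R s := by
      have := Finset.card_nsmul_le_sum S (wt Y R) (M - d) hMs
      rwa [nsmul_eq_mul] at this
    have h2 : ℓ * d / Real.pi ≤ S.card + c / Real.pi := by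
      rw [div_le_iff₀ hpi]
      have : ((S.card : ℝ) + c / Real.pi) * Real.pi = Real.pi * S.card + c := by
        rw [add_mul, div_mul_cancel₀ _ hpi.ne', mul_comm]
      linarith
    have h3 := mul_le_mul_of_nonneg_right h2 h
    have h4 : c / Real.pi * (M - d) ≤ c / Real.pi * wm :=
      mul_le_mul_of_nonneg_left (by linarith) (by positivity)
    nlinarith
  · have h1 : ℓ * d / Real.pi * (M - d) ≤ 0 := mul_nonpos_of_nonneg_of_nonpos (by positivity) h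
    linarith

/-- the union of the segments -/
lemma chain {Y R d ℓ c wm a0 : ℝ} (hY : 1 ≤ Y) (hd : 0 < d) (hℓ : 0 ≤ ℓ) (hc : 0 ≤ c) (hwm : 0 ≤ wm)
    (hw : ∀ t, wt Y R t ≤ wm) {F : ℂ → ℂ} {N : ℕ}
    (hseg : ∀ n : ℕ, n < N → ∃ S : Finset ℝ, (∀ s ∈ S, a0 + n * d ≤ s ∧ s < a0 + n * d + d ∧
      F (s * I) = 0) ∧ ℓ * d ≤ Real.pi * S.card + c)
    (hnn : ∀ s : ℝ, a0 ≤ s → s ≤ a0 + N * d → 0 ≤ wt Y R s) (n : ℕ) (hn : n ≤ N) :
    ∃ S : Finset ℝ, (∀ s ∈ S, a0 ≤ s ∧ s < a0 + n * d ∧ F (s * I) = 0) ∧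
      ℓ / Real.pi * (∫ t in a0..(a0 + n * d), wt Y R t) ≤
        ∑ s ∈ S, wt Y R s + n * (ℓ * d ^ 2 / Real.pi + c / Real.pi * wm) := by
  classical
  have hY0 : 0 < Y := by linarith
  induction n with
  | zero => refine ⟨∅, by simp, by simp⟩
  | succ n ih =>
    obtain ⟨S, hS, hSb⟩ := ih (by omega)
    obtain ⟨T, hT, hTc⟩ := hseg n (by omega)
    have hnN : ((n + 1 : ℕ) : ℝ) ≤ N := by exact_mod_cast hn
    push_cast at hnN
    have hnd : 0 ≤ (n : ℝ) * d := by positivity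
    have hNd : ((n : ℝ) + 1) * d ≤ N * d := mul_le_mul_of_nonneg_right hnN hd.le
    have h1 := seg_sum (Y := Y) (R := R) (a := a0 + n * d) hY hd hℓ hc hwm hw (S := T)
      (fun s hs => ⟨(hT s hs).1, (hT s hs).2.1, hnn s (by linarith [(hT s hs).1])
        (by linarith [(hT s hs).2.1])⟩) hTc
    have hdisj : Disjoint S T := by
      rw [Finset.disjoint_left]
      intro s hs ht
      have := (hS s hs).2.1
      have := (hT s ht).1
      linarith
    refine ⟨S ∪ T, ?_, ?_⟩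
    · intro s hs
      push_cast
      rcases Finset.mem_union.1 hs with h | h
      · obtain ⟨h2, h3, h4⟩ := hS s h
        exact ⟨h2, by linarith, h4⟩
      · obtain ⟨h2, h3, h4⟩ := hT s h
        exact ⟨by linarith, by linarith, h4⟩
    · rw [Finset.sum_union hdisj]
      have hcont : ∀ a b : ℝ, IntervalIntegrable (wt Y R) volume a b := fun a b =>
        (wt_cont hY0).intervalIntegrable _ _
      have e1 : a0 + ((n + 1 : ℕ) : ℝ) * d = a0 + n * d + d := by push_cast; ring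
      rw [e1, ← intervalIntegral.integral_add_adjacent_intervals (hcont a0 (a0 + n * d)) (hcont _ _),
        mul_add]
      push_cast
      linarith

/-- the abstract counting theorem: few zeros off the line -/
theorem off_count (Y δ ε0 : ℝ) (hY : 1 ≤ Y) (hδ : 0 < δ) (hδ1 : δ ≤ 1) (hε0 : 0 < ε0) :
    ∃ κ ℓ0 : ℝ, 0 < κ ∧ ∀ (A F : ℂ → ℂ) (ε : ℂ) (ℓ H : ℝ), Differentiable ℂ A → Differentiable ℂ F →
      ‖ε‖ = 1 → ℓ0 ≤ ℓ → 0 < H →
      (∀ t : ℝ, F (t * I) = A (t * I) + ε * conj (A (t * I))) →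
      (∀ u : ℂ, -δ ≤ u.re → u.re ≤ 2 * Y + 2 → |u.im| ≤ 2 * Y + 3 →
        ‖A u‖ ≤ H * Real.exp (ℓ * u.re + κ * ℓ)) →
      (∀ y : ℝ, |y| ≤ Y + 2 → H * Real.exp (ℓ * Y - κ * ℓ) ≤ ‖A (Y + y * I)‖) →
      (∀ u : ℂ, |u.re| ≤ 2 * Y + 2 → |u.im| ≤ 2 * Y + 3 →
        ‖F u‖ ≤ H * Real.exp (ℓ * |u.re| + κ * ℓ)) →
      H * Real.exp (ℓ * Y - κ * ℓ) ≤ ‖F Y‖ →
      Cnt F {z : ℂ | z.re ≠ 0 ∧ |z.re| ≤ 1 ∧ |z.im| ≤ 1} (ε0 * ℓ) := by
  classical
  have hpi := Real.pi_pos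
  have hpi1 : 1 ≤ Real.pi := by linarith [Real.pi_gt_three]
  have hY0 : 0 < Y := by linarith
  obtain ⟨R, hR⟩ : ∃ R : ℝ, R = Y + 2 := ⟨_, rfl⟩
  have hR0 : 0 < R := by linarith
  obtain ⟨h, hh⟩ : ∃ h : ℝ, h = Real.sqrt (4 * Y + 4) := ⟨_, rfl⟩
  have hh0 : 0 < h := by rw [hh]; exact Real.sqrt_pos.2 (by linarith)
  have hhR : Y ^ 2 + h ^ 2 = R ^ 2 := by
    rw [hh, Real.sq_sqrt (by linarith), hR]; ring
  have hhR' : h ≤ R := by nlinarith
  -- the least weight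
  obtain ⟨q, hq⟩ : ∃ q : ℝ, q = Real.sqrt ((Y + 1) ^ 2 + 1) := ⟨_, rfl⟩
  have hq0 : 0 < q := by rw [hq]; exact Real.sqrt_pos.2 (by positivity)
  have hqR : q < R := by
    rw [hq, Real.sqrt_lt' hR0, hR]; nlinarith
  obtain ⟨w0, hw0d⟩ : ∃ w0 : ℝ, w0 = Real.log (R * q⁻¹) := ⟨_, rfl⟩
  have hw0 : 0 < w0 := by
    rw [hw0d, ← div_eq_mul_inv]
    exact Real.log_pos (by rw [one_lt_div hq0]; exact hqR)
  obtain ⟨wm, hwm⟩ : ∃ wm : ℝ, wm = Real.log R := ⟨_, rfl⟩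
  have hwm0 : 0 ≤ wm := by rw [hwm]; exact Real.log_nonneg (by linarith)
  obtain ⟨C, hC, hseg2⟩ := seg2 hY0 hδ hδ1
  obtain ⟨N, hN⟩ := exists_nat_ge (8 * h / δ + 16 * h ^ 2 / (ε0 * w0) + 1)
  have hN1 : (1 : ℝ) ≤ N := by
    have : 0 ≤ 8 * h / δ := by positivity
    have : 0 ≤ 16 * h ^ 2 / (ε0 * w0) := by positivity
    linarith
  have hN0 : (0 : ℝ) < N := by linarith
  obtain ⟨d, hd⟩ : ∃ d : ℝ, d = 2 * h / N := ⟨_, rfl⟩
  have hd0 : 0 < d := by rw [hd]; positivity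
  have hNd : N * d = 2 * h := by rw [hd]; field_simp
  have hdδ : d ≤ δ / 4 := by
    have h1 : 8 * h / δ ≤ N := by
      have : 0 ≤ 16 * h ^ 2 / (ε0 * w0) := by positivity
      linarith
    rw [div_le_iff₀ hδ] at h1
    rw [hd, div_le_iff₀ hN0]
    linarith
  have hE1 : 2 * h * d ≤ ε0 * w0 / 4 := by
    have h1 : 16 * h ^ 2 / (ε0 * w0) ≤ N := by
      have : 0 ≤ 8 * h / δ := by positivity
      linarith
    rw [div_le_iff₀ (by positivity)] at h1
    have e1 : 2 * h * d = 4 * h ^ 2 / N := by rw [hd]; ring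
    rw [e1, div_le_iff₀ hN0]
    linarith
  obtain ⟨Q, hQ⟩ : ∃ Q : ℝ, Q = N * C * wm := ⟨_, rfl⟩
  have hQ0 : 0 ≤ Q := by rw [hQ]; positivity
  obtain ⟨κ, hκd⟩ : ∃ κ : ℝ, κ = min (ε0 * w0 / 8) (ε0 * w0 / (8 * (Q + 1))) := ⟨_, rfl⟩
  have hκ : 0 < κ := by rw [hκd]; exact lt_min (by positivity) (by positivity)
  have hκ1 : κ ≤ ε0 * w0 / 8 := by rw [hκd]; exact min_le_left _ _
  have hκ2 : Q * κ ≤ ε0 * w0 / 8 := by
    have h1 : κ ≤ ε0 * w0 / (8 * (Q + 1)) := by rw [hκd]; exact min_le_right _ _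
    rw [le_div_iff₀ (by positivity)] at h1
    nlinarith
  refine ⟨κ, 8 * Q / (ε0 * w0) + 1, hκ, ?_⟩
  intro A F ε ℓ H hA hF hε hℓ0 hH ha hb hcc hdd hee
  have hℓ1 : 8 * Q / (ε0 * w0) ≤ ℓ := by linarith
  have hℓ : 0 ≤ ℓ := le_trans (by positivity) hℓ1
  have hℓQ : Q ≤ ε0 * w0 / 8 * ℓ := by
    rw [div_le_iff₀ (by positivity)] at hℓ1
    linarith
  obtain ⟨c, hc⟩ : ∃ c : ℝ, c = C * (κ * ℓ + 1) := ⟨_, rfl⟩
  have hc0 : 0 ≤ c := by rw [hc]; positivity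
  have hsegs : ∀ n : ℕ, n < N → ∃ S : Finset ℝ, (∀ s ∈ S, -h + n * d ≤ s ∧ s < -h + n * d + d ∧
      F (s * I) = 0) ∧ ℓ * d ≤ Real.pi * S.card + c := by
    intro n hn
    have hnN : ((n : ℝ) + 1) ≤ N := by exact_mod_cast hn
    have h1 : ((n : ℝ) + 1) * d ≤ N * d := mul_le_mul_of_nonneg_right hnN hd0.le
    have h2 : 0 ≤ (n : ℝ) * d := by positivity
    have hy : |-h + n * d| ≤ Y + 2 := by
      rw [abs_le]; constructor <;> linarith
    obtain ⟨S, hS, hSb⟩ := hseg2 A F ε ℓ κ H (-h + n * d) (-h + n * d) (-h + n * d + d) hA hε hℓ hκ.le hH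
      ha (fun u hu1 hu2 hu3 => hb u hu1 (by linarith) (by
        have := abs_add_le (u.im - (-h + n * d)) (-h + n * d)
        rw [sub_add_cancel] at this
        linarith)) (hcc _ hy) (by linarith) (by linarith) (by linarith)
    refine ⟨S, hS, ?_⟩
    have e1 : -h + n * d + d - (-h + n * d) = d := by ring
    rw [e1] at hSb
    rw [hc]
    exact hSb
  have hnn : ∀ s : ℝ, -h ≤ s → s ≤ -h + N * d → 0 ≤ wt Y R s := by
    intro s h1 h2
    refine wt_nonneg hY0 hhR ?_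
    rw [abs_le]
    constructor
    · exact h1
    · linarith
  obtain ⟨S0, hS0, hS0b⟩ := chain hY hd0 hℓ hc0 hwm0 (fun t => by rw [hwm]; exact wt_le hY t) hsegs hnn N le_rfl
  have e1 : -h + N * d = h := by linarith
  rw [e1] at hS0b hS0
  intro S hS
  obtain ⟨T, hT⟩ : ∃ T : Finset ℂ, T = S0.image (fun s : ℝ => (s : ℂ) * I) := ⟨_, rfl⟩
  have hTm : ∀ z ∈ T, z.re = 0 := by
    intro z hz
    rw [hT, Finset.mem_image] at hz
    obtain ⟨s, -, rfl⟩ := hz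
    simp
  have hdisj : Disjoint S T := by
    rw [Finset.disjoint_left]
    intro z hz hz'
    exact (hS z hz).2.1 (hTm z hz')
  have hnorm : ∀ z ∈ S, ‖(Y : ℂ) - z‖ ≤ q := by
    intro z hz
    obtain ⟨-, -, h1, h2⟩ := hS z hz
    rw [Complex.norm_eq_sqrt_sq_add_sq, hq]
    apply Real.sqrt_le_sqrt
    rw [Complex.sub_re, Complex.sub_im, Complex.ofReal_re, Complex.ofReal_im]
    rw [abs_le] at h1
    have h3 : (0 - z.im) ^ 2 ≤ 1 := by
      rw [zero_sub, neg_sq, ← sq_abs]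
      nlinarith [abs_nonneg z.im]
    have h4 : (Y - z.re) ^ 2 ≤ (Y + 1) ^ 2 := by nlinarith [h1.1, h1.2]
    linarith
  have hball : ∀ z ∈ S ∪ T, z ∈ Metric.closedBall (Y : ℂ) R := by
    intro z hz
    rw [Metric.mem_closedBall, dist_eq_norm, norm_sub_rev]
    rcases Finset.mem_union.1 hz with h1 | h1
    · exact (hnorm z h1).trans hqR.le
    · rw [hT, Finset.mem_image] at h1
      obtain ⟨s, hs, rfl⟩ := h1
      have h2 : ‖(Y : ℂ) - (s : ℂ) * I‖ = Real.sqrt (Y ^ 2 + s ^ 2) := by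
        rw [Complex.norm_eq_sqrt_sq_add_sq]
        simp
      rw [h2, Real.sqrt_le_left hR0.le, ← hhR]
      have h3 : |s| ≤ h := by rw [abs_le]; constructor <;> linarith [(hS0 s hs).1, (hS0 s hs).2.1]
      have h4 : s ^ 2 ≤ h ^ 2 := by rw [← sq_abs]; exact pow_le_pow_left₀ (abs_nonneg _) h3 2
      linarith
  have hFne : ∃ u, F u ≠ 0 := by
    refine ⟨Y, fun h0 => ?_⟩
    rw [h0, norm_zero] at hee
    have := mul_pos hH (Real.exp_pos (ℓ * Y - κ * ℓ))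
    linarith
  have hup : ∀ u ∈ Metric.sphere (Y : ℂ) R, ‖F u‖ ≤ H * Real.exp (ℓ * |u.re| + κ * ℓ) := by
    intro u hu
    rw [mem_sphere_iff_norm] at hu
    have h1 : |(u - Y).re| ≤ R := by rw [← hu]; exact Complex.abs_re_le_norm _
    have h2 : |(u - Y).im| ≤ R := by rw [← hu]; exact Complex.abs_im_le_norm _
    rw [Complex.sub_re, Complex.ofReal_re, abs_le] at h1
    rw [Complex.sub_im, Complex.ofReal_im, sub_zero] at h2
    apply hdd
    · rw [abs_le]; constructor <;> linarith [h1.1, h1.2]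
    · linarith
  have hj := jen_line hF hY0 hR0 hh0.le hhR hℓ hκ.le hH hup hee (S ∪ T) hball
  rw [Finset.sum_union hdisj] at hj
  -- the zeros on the line
  have hTsum : ∑ s ∈ S0, wt Y R s ≤
      ∑ z ∈ T, (analyticOrderNatAt F z : ℝ) * Real.log (R * ‖(Y : ℂ) - z‖⁻¹) := by
    rw [hT, Finset.sum_image (by
      intro s _ s' _ he
      have h1 : (s : ℂ) * I = (s' : ℂ) * I := he
      have h2 := mul_right_cancel₀ Complex.I_ne_zero h1
      exact_mod_cast h2)]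
    apply Finset.sum_le_sum
    intro s hs
    rw [wt_eq hY0 hR0]
    obtain ⟨h1, h2, h3⟩ := hS0 s hs
    have hw : 0 ≤ wt Y R s := hnn s h1 (by rw [e1]; exact h2.le)
    have hm : 1 ≤ analyticOrderNatAt F (s * I) := by
      by_contra hcon
      have h4 : analyticOrderNatAt F (s * I) = 0 := by omega
      obtain ⟨g, -, hg0, hg⟩ := Pool.Agent.W186.LH.single hF hFne (s * I)
      rw [h4] at hg
      have h5 := hg (s * I)
      rw [h3, pow_zero, one_mul] at h5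
      exact hg0 h5.symm
    have hm' : (1 : ℝ) ≤ analyticOrderNatAt F (s * I) := by exact_mod_cast hm
    nlinarith
  have hSsum : w0 * ∑ z ∈ S, (analyticOrderNatAt F z : ℝ) ≤
      ∑ z ∈ S, (analyticOrderNatAt F z : ℝ) * Real.log (R * ‖(Y : ℂ) - z‖⁻¹) := by
    rw [Finset.mul_sum]
    apply Finset.sum_le_sum
    intro z hz
    rw [mul_comm]
    apply mul_le_mul_of_nonneg_left _ (Nat.cast_nonneg _)
    rw [hw0d]
    apply Real.log_le_log (by positivity)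
    apply mul_le_mul_of_nonneg_left _ hR0.le
    apply inv_anti₀ _ (hnorm z hz)
    rw [norm_pos_iff, sub_ne_zero]
    intro h0
    obtain ⟨-, -, h1, -⟩ := hS z hz
    have h2 := hnorm z hz
    have hz0 := (hS z hz).1
    rw [← h0] at hz0
    rw [hz0, norm_zero] at hee
    have := mul_pos hH (Real.exp_pos (ℓ * Y - κ * ℓ))
    linarith
  have hNE : (N : ℝ) * (ℓ * d ^ 2 / Real.pi + c / Real.pi * wm) ≤ ε0 * w0 / 2 * ℓ := by
    have h1 : (N : ℝ) * (ℓ * d ^ 2 / Real.pi) ≤ ε0 * w0 / 4 * ℓ := by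
      have h2 : (N : ℝ) * (ℓ * d ^ 2 / Real.pi) = (N * d) * d * ℓ / Real.pi := by ring
      rw [h2, hNd]
      refine (div_le_self (by positivity) hpi1).trans ?_
      exact mul_le_mul_of_nonneg_right hE1 hℓ
    have h3 : (N : ℝ) * (c / Real.pi * wm) ≤ ε0 * w0 / 4 * ℓ := by
      have h4 : (N : ℝ) * (c / Real.pi * wm) = Q * (κ * ℓ + 1) / Real.pi := by rw [hc, hQ]; ring
      rw [h4]
      refine (div_le_self (by positivity) hpi1).trans ?_
      have h5 : Q * (κ * ℓ + 1) = Q * κ * ℓ + Q := by ring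
      rw [h5]
      have h6 := mul_le_mul_of_nonneg_right hκ2 hℓ
      linarith
    rw [mul_add]
    linarith
  have hκℓ := mul_le_mul_of_nonneg_right hκ1 hℓ
  have hfin : w0 * ∑ z ∈ S, (analyticOrderNatAt F z : ℝ) ≤ w0 * (ε0 * ℓ) := by
    have h1 : 0 ≤ ε0 * w0 * ℓ := by positivity
    linarith
  exact le_of_mul_le_mul_left hfin hw0

end Pool.Agent.J4H1.LH
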