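import Pool.Agent.J4H1.LH.Off3
import Pool.Agent.J4H1.LH.Off4
import Pool.Agent.W160.HF.Hpx
import Pool.Agent.W366.HF.Hlo

/-!
# Project LH, S_OFF, part 5: bounds for the half-line part, and the theorem
-/

set_option autoImplicit false

open Complex MeasureTheory Filter Topology Set
open scoped ComplexConjugate

namespace Pool.Agent.J4H1.LH

open Pool.Agent.W169.HF (UD Pf Cnt phx Slow heat S_HLO S_HPX)

/-- the exponent slightly to the left of the line -/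
lemma expo2 {x g δ τ σ r : ℝ} (hx : 0 < x) (hδ0 : 0 ≤ δ) (hδg : 3 * δ ≤ g) (hδx : δ ≤ x)
    (hτ : x + g ≤ τ) (hσ : -δ ≤ σ) (hr : 0 ≤ r) :
    phx x |σ + r| ≤ σ + τ / 2 + r ^ 2 / (2 * τ) := by
  have hτ0 : 0 < τ := by linarith
  obtain ⟨y, hy⟩ : ∃ y : ℝ, y = σ + r := ⟨_, rfl⟩
  rw [← hy]
  unfold phx
  rcases lt_or_ge y 0 with h | h
  · rw [abs_of_neg h, max_eq_left (by linarith : 0 ≤ x - -y)]
    have h1 : -y + (x - -y) ^ 2 / (2 * x) = x / 2 + y ^ 2 / (2 * x) := by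
      field_simp
      ring
    rw [h1]
    have h2 : y ^ 2 / (2 * x) ≤ δ / 2 := by
      rw [div_le_div_iff₀ (by positivity) (by norm_num)]
      have h3 : y ^ 2 ≤ δ * x := by nlinarith
      linarith
    have h3 : 0 ≤ r ^ 2 / (2 * τ) := by positivity
    linarith
  · rw [abs_of_nonneg h]
    have h1 : σ + τ / 2 + r ^ 2 / (2 * τ) = y + (τ - r) ^ 2 / (2 * τ) := by
      rw [hy]; field_simp; ring
    rw [h1]
    apply add_le_add_right
    rcases le_total (x - y) 0 with h2 | h2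
    · rw [max_eq_right h2]
      simp only [ne_eq, OfNat.ofNat_ne_zero, not_false_eq_true, zero_pow, zero_div]
      positivity
    · rw [max_eq_left h2, div_le_div_iff₀ (by positivity) (by positivity)]
      have hr1 : r ≤ y + δ := by linarith
      have h3 : 0 ≤ τ - y - δ := by linarith
      have h4 : (τ - y - δ) ^ 2 ≤ (τ - r) ^ 2 := pow_le_pow_left₀ h3 (by linarith) 2
      obtain ⟨z, hz⟩ : ∃ z : ℝ, z = x - y := ⟨_, rfl⟩
      obtain ⟨e, he⟩ : ∃ e : ℝ, e = τ - x - 3 * δ := ⟨_, rfl⟩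
      have hz0 : 0 ≤ z := by linarith
      have hzx : z ≤ x := by linarith
      have he0 : 0 ≤ e := by linarith
      have h5 : (x - y) ^ 2 * τ ≤ (τ - y - δ) ^ 2 * x := by
        have e1 : (τ - y - δ) ^ 2 * x - (x - y) ^ 2 * τ =
            x * z * (δ + e) + (3 * δ + e) * z * (x - z) + x * (2 * δ + e) ^ 2 := by
          rw [hz, he]; ring
        have : 0 ≤ x * z * (δ + e) + (3 * δ + e) * z * (x - z) + x * (2 * δ + e) ^ 2 := by
          have : 0 ≤ x - z := by linarith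
          positivity
        linarith
      have h6 := mul_le_mul_of_nonneg_right h4 hx.le
      linarith

/-- `√ℓ` is small -/
lemma sqrt_small {κ ℓ : ℝ} (hκ : 0 < κ) (hℓ : 0 < ℓ) (h : 32 ≤ κ ^ 2 * ℓ) :
    Real.sqrt ℓ ≤ Real.exp (κ * ℓ / 4) := by
  rw [Real.sqrt_le_left (Real.exp_pos _).le, ← Real.exp_nat_mul]
  have h1 := Real.quadratic_le_exp_of_nonneg (x := κ * ℓ / 2) (by positivity)
  have h2 : ((2 : ℕ) : ℝ) * (κ * ℓ / 4) = κ * ℓ / 2 := by push_cast; ring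
  rw [h2]
  have h3 : 32 * ℓ ≤ (κ * ℓ) ^ 2 := by nlinarith
  have h4 : 0 ≤ κ * ℓ / 2 := by positivity
  nlinarith

/-- upper bound for the half-line part, also slightly to the left of the line -/
theorem Ah_up (K ϑ0 x g X κ δ R1 : ℝ) (hK : 1 ≤ K) (hϑ2 : ϑ0 ≤ 2) (hx : 0 < x) (hg : 0 < g)
    (hX : 1 ≤ X) (hκ : 0 < κ) (hδ : 0 ≤ δ) (hδ1 : δ ≤ 1) (hδg : 3 * δ ≤ g) (hδx : δ ≤ x) (hR1 : 1 ≤ R1) :
    ∃ κ1 R ℓ0 : ℝ, 0 < κ1 ∧ R1 ≤ R ∧ ∀ (ℓ G t : ℝ) (f : ℂ → ℂ), ℓ0 ≤ ℓ → UD K ϑ0 ℓ G f →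
      (∀ u : ℂ, |u.re| ≤ R → |u.im| ≤ R → ‖f u‖ ≤ G * Real.exp (ℓ * phx x |u.re| + κ1 * ℓ)) →
      0 < t → x + g ≤ 2 * t * ℓ → 2 * t * ℓ ≤ X → ∀ u : ℂ, -δ ≤ u.re → u.re ≤ R1 → |u.im| ≤ R1 →
        ‖Ah t f u‖ ≤ G * Real.exp (t * ℓ ^ 2) * Real.exp (ℓ * u.re + κ * ℓ) := by
  obtain ⟨R, hR⟩ : ∃ R : ℝ, R = 2 * R1 + 64 * X := ⟨_, rfl⟩
  obtain ⟨C2, hC2⟩ : ∃ C2 : ℝ, C2 = (R + R1) ^ 2 / x + K * (1 + R1 ^ 2) := ⟨_, rfl⟩
  have hC1 : 0 ≤ (R + R1) ^ 2 / x := by positivity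
  have hK1 : 0 ≤ K * (1 + R1 ^ 2) := by positivity
  refine ⟨κ / 4, R, 2 + 64 * K * X + 4 * C2 / κ + 8 / κ ^ 2 * 4, by positivity, by rw [hR]; linarith, ?_⟩
  intro ℓ G t f hℓ hf hb ht htx htX u hu0 hu1 hu2
  have hKX : 0 < K * X := by positivity
  have hC20 : 0 ≤ C2 := by rw [hC2]; linarith
  have q1 : 0 ≤ 4 * C2 / κ := by positivity
  have q2 : 0 ≤ 8 / κ ^ 2 * 4 := by positivity
  have hℓ2 : 2 ≤ ℓ := by linarith
  have hℓ0 : 0 < ℓ := by linarith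
  have hℓK : 64 * K * X ≤ ℓ := by linarith
  have hℓC : C2 ≤ κ * ℓ / 4 := by
    have : 4 * C2 / κ ≤ ℓ := by linarith
    rw [div_le_iff₀ hκ] at this
    linarith
  have hℓκ : 32 ≤ κ ^ 2 * ℓ := by
    have : 8 / κ ^ 2 * 4 ≤ ℓ := by linarith
    rw [div_mul_eq_mul_div, div_le_iff₀ (by positivity)] at this
    linarith
  have hG := hf.hG
  obtain ⟨τ, hτd⟩ : ∃ τ : ℝ, τ = 2 * t * ℓ := ⟨_, rfl⟩
  rw [← hτd] at htx htX
  have hτ : x ≤ τ := by linarith
  have hτ0 : 0 < τ := by linarith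
  obtain ⟨a, ha⟩ : ∃ a : ℝ, a = u.re := ⟨_, rfl⟩
  rw [← ha] at hu0 hu1 ⊢
  have haR : |a| ≤ R1 := by rw [abs_le]; constructor <;> linarith
  obtain ⟨M, hM⟩ : ∃ M : ℝ, M = G * Real.exp (t * ℓ ^ 2 + ℓ * a + κ / 4 * ℓ + C2) := ⟨_, rfl⟩
  have hM0 : 0 ≤ M := by rw [hM]; positivity
  have hpt : ∀ v : ℝ, 0 < v → ‖((Real.exp (-v ^ 2) : ℝ) : ℂ) * f (u + ((2 * Real.sqrt t * v : ℝ) : ℂ))‖ ≤
      M * Real.exp (-(1 / ℓ) * v ^ 2) := by
    intro v hv
    rw [norm_mul, Complex.norm_real, Real.norm_eq_abs, abs_of_pos (Real.exp_pos _)]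
    obtain ⟨w, hw⟩ : ∃ w : ℂ, w = u + ((2 * Real.sqrt t * v : ℝ) : ℂ) := ⟨_, rfl⟩
    rw [← hw]
    obtain ⟨s, hs⟩ : ∃ s : ℝ, s = 2 * Real.sqrt t * v := ⟨_, rfl⟩
    have hs0 : 0 ≤ s := by rw [hs]; positivity
    have hwr : w.re = a + s := by rw [hw, Complex.add_re, Complex.ofReal_re, ha, hs]
    have hwi : w.im = u.im := by rw [hw, Complex.add_im, Complex.ofReal_im, add_zero]
    have hsv : v ^ 2 = ℓ * (s ^ 2 / (2 * τ)) := by
      have h1 : s ^ 2 = 4 * t * v ^ 2 := by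
        rw [hs, mul_pow, mul_pow, Real.sq_sqrt ht.le]
        ring
      rw [h1, hτd]
      field_simp
      ring
    rcases le_or_gt |w.re| R with h | h
    · -- the window
      have h1 := hb w h (by rw [hwi]; rw [hR]; linarith [abs_nonneg u.im])
      have h2 : phx x |w.re| ≤ a + τ / 2 + s ^ 2 / (2 * τ) := by
        rw [hwr]; exact expo2 hx hδ hδg hδx htx hu0 hs0
      have h3 : s ≤ R + R1 := by
        have e1 : s = w.re - a := by rw [hwr]; ring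
        rw [e1]
        refine (le_abs_self _).trans ((abs_sub _ _).trans ?_)
        linarith
      have h4 : s ^ 2 / (2 * τ) ≤ (R + R1) ^ 2 / x := by
        have : s ^ 2 ≤ (R + R1) ^ 2 := pow_le_pow_left₀ hs0 h3 2
        apply div_le_div₀ (by positivity) this hx (by linarith)
      have h5 : 1 / ℓ * v ^ 2 ≤ (R + R1) ^ 2 / x := by
        rw [hsv, ← mul_assoc, one_div, inv_mul_cancel₀ hℓ0.ne', one_mul]
        exact h4
      calc Real.exp (-v ^ 2) * ‖f w‖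
          ≤ Real.exp (-v ^ 2) * (G * Real.exp (ℓ * phx x |w.re| + κ / 4 * ℓ)) :=
            mul_le_mul_of_nonneg_left h1 (Real.exp_pos _).le
        _ = G * Real.exp (-v ^ 2 + (ℓ * phx x |w.re| + κ / 4 * ℓ)) := by
            rw [mul_left_comm, ← Real.exp_add]
        _ ≤ G * Real.exp ((t * ℓ ^ 2 + ℓ * a + κ / 4 * ℓ + C2) + (-(1 / ℓ) * v ^ 2)) := by
            apply mul_le_mul_of_nonneg_left _ hG.le
            apply Real.exp_le_exp.2
            have h6 := mul_le_mul_of_nonneg_left h2 hℓ0.le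
            have h7 : ℓ * (a + τ / 2 + s ^ 2 / (2 * τ)) = ℓ * a + t * ℓ ^ 2 + v ^ 2 := by
              rw [hsv, hτd]
              ring
            rw [h7] at h6
            rw [hC2]
            linarith
        _ = M * Real.exp (-(1 / ℓ) * v ^ 2) := by rw [hM, Real.exp_add]; ring
    · -- far away
      have h1 := hf.up w
      have hR2 : 2 * R1 + 64 * X < |w.re| := by rw [← hR]; exact h
      have h2 : max |w.re| ϑ0 = |w.re| := max_eq_left (by linarith)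
      rw [h2] at h1
      have h3 : ‖w‖ ^ 2 ≤ |w.re| ^ 2 + R1 ^ 2 := by
        rw [← Complex.normSq_eq_norm_sq, Complex.normSq_apply, sq_abs]
        have : w.im * w.im ≤ R1 ^ 2 := by
          rw [hwi, ← sq, ← sq_abs]
          exact pow_le_pow_left₀ (abs_nonneg _) hu2 2
        nlinarith
      have h4 : |w.re| / 2 ≤ s := by
        have e1 : |w.re| ≤ |a| + s := by
          rw [hwr]
          refine (abs_add_le _ _).trans ?_
          rw [abs_of_nonneg hs0]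
        linarith
      have h5 : ℓ * (|w.re| ^ 2 / (16 * X)) ≤ v ^ 2 / 2 := by
        have e1 : (|w.re| / 2) ^ 2 ≤ s ^ 2 := pow_le_pow_left₀ (by positivity) h4 2
        have e2 : (|w.re| / 2) ^ 2 / (2 * X) ≤ s ^ 2 / (2 * τ) := by
          apply div_le_div₀ (by positivity) e1 (by positivity) (by linarith)
        have e3 : |w.re| ^ 2 / (16 * X) = (|w.re| / 2) ^ 2 / (2 * X) / 2 := by
          field_simp
          ring
        rw [e3, hsv]
        have := mul_le_mul_of_nonneg_left e2 hℓ0.le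
        linarith
      have h6 : ℓ * |w.re| + ℓ ≤ ℓ * (|w.re| ^ 2 / (32 * X)) := by
        have e1 : |w.re| + 1 ≤ |w.re| ^ 2 / (32 * X) := by
          rw [le_div_iff₀ (by positivity)]
          have e2 : |w.re| * (64 * X) ≤ |w.re| * |w.re| :=
            mul_le_mul_of_nonneg_left (by linarith) (abs_nonneg _)
          have e3 : 1 * (32 * X) ≤ |w.re| * (32 * X) :=
            mul_le_mul_of_nonneg_right (by linarith) (by positivity)
          nlinarith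
        have := mul_le_mul_of_nonneg_left e1 hℓ0.le
        linarith
      have h7 : K * |w.re| ^ 2 ≤ ℓ * (|w.re| ^ 2 / (32 * X)) := by
        rw [mul_div_assoc', le_div_iff₀ (by positivity)]
        have e1 : 64 * K * X * |w.re| ^ 2 ≤ ℓ * |w.re| ^ 2 := mul_le_mul_of_nonneg_right hℓK (by positivity)
        have e2 : 0 ≤ K * X * |w.re| ^ 2 := by positivity
        nlinarith
      have h8 : ℓ * (|w.re| ^ 2 / (16 * X)) = ℓ * (|w.re| ^ 2 / (32 * X)) + ℓ * (|w.re| ^ 2 / (32 * X)) := by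
        field_simp
        ring
      have h9 : 1 / ℓ * v ^ 2 ≤ v ^ 2 / 2 := by
        rw [div_mul_eq_mul_div, one_mul]
        exact div_le_div_of_nonneg_left (sq_nonneg _) (by norm_num) hℓ2
      calc Real.exp (-v ^ 2) * ‖f w‖
          ≤ Real.exp (-v ^ 2) * (G * Real.exp (ℓ * |w.re| + K * (1 + ‖w‖ ^ 2))) :=
            mul_le_mul_of_nonneg_left h1 (Real.exp_pos _).le
        _ = G * Real.exp (-v ^ 2 + (ℓ * |w.re| + K * (1 + ‖w‖ ^ 2))) := by
            rw [mul_left_comm, ← Real.exp_add]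
        _ ≤ G * Real.exp ((t * ℓ ^ 2 + ℓ * a + κ / 4 * ℓ + C2) + (-(1 / ℓ) * v ^ 2)) := by
            apply mul_le_mul_of_nonneg_left _ hG.le
            apply Real.exp_le_exp.2
            have g1 : K * (1 + ‖w‖ ^ 2) ≤ K * |w.re| ^ 2 + K * (1 + R1 ^ 2) := by
              have := mul_le_mul_of_nonneg_left h3 (by linarith : (0 : ℝ) ≤ K)
              linarith
            have g2 : 0 ≤ t * ℓ ^ 2 := by positivity
            have g3 : -ℓ ≤ ℓ * a := by nlinarith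
            have g4 : 0 ≤ κ / 4 * ℓ := by positivity
            rw [hC2]
            linarith
        _ = M * Real.exp (-(1 / ℓ) * v ^ 2) := by rw [hM, Real.exp_add]; ring
  have h1 := Ah_le hℓ0 hM0 hpt
  have hsl := sqrt_small hκ hℓ0 hℓκ
  calc ‖Ah t f u‖ ≤ M * Real.sqrt ℓ := h1
    _ ≤ M * Real.exp (κ * ℓ / 4) := mul_le_mul_of_nonneg_left hsl hM0
    _ = G * Real.exp (t * ℓ ^ 2) * Real.exp (ℓ * a + (κ / 4 * ℓ + C2 + κ * ℓ / 4)) := by
        rw [hM, mul_assoc G, mul_assoc G, ← Real.exp_add, ← Real.exp_add]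
        congr 2
        ring
    _ ≤ _ := by
        apply mul_le_mul_of_nonneg_left _ (by positivity)
        apply Real.exp_le_exp.2
        linarith [mul_pos hκ hℓ0]

/-- the other half is small far to the right -/
theorem Ah_neg (K ϑ0 X Y R1 : ℝ) (hK : 1 ≤ K) (hϑ : ϑ0 ≤ Y) (hX : 1 ≤ X) (hXY : X ≤ Y) (hR1 : 0 ≤ R1) :
    ∃ C ℓ0 : ℝ, 0 ≤ C ∧ ∀ (ℓ G t : ℝ) (f : ℂ → ℂ), ℓ0 ≤ ℓ → UD K ϑ0 ℓ G f → 0 < t → 2 * t * ℓ ≤ X →
      ∀ y : ℝ, |y| ≤ R1 → ‖Ah t f (-(Y : ℂ) + y * I)‖ ≤ G * Real.exp (ℓ * Y + C) * Real.sqrt ℓ := by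
  obtain ⟨C, hC⟩ : ∃ C : ℝ, C = K * (1 + 2 * Y ^ 2 + R1 ^ 2) := ⟨_, rfl⟩
  refine ⟨C, 16 * K * X + 4, by rw [hC]; positivity, ?_⟩
  intro ℓ G t f hℓ hf ht htX y hy
  have hKX : 0 < K * X := by positivity
  have hℓ4 : 4 ≤ ℓ := by nlinarith
  have hℓ0 : 0 < ℓ := by linarith
  have hℓK : 16 * K * X ≤ ℓ := by linarith
  have hG := hf.hG
  obtain ⟨τ, hτd⟩ : ∃ τ : ℝ, τ = 2 * t * ℓ := ⟨_, rfl⟩
  rw [← hτd] at htX
  have hτ0 : 0 < τ := by rw [hτd]; positivity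
  refine Ah_le hℓ0 (by positivity) ?_
  intro v hv
  rw [norm_mul, Complex.norm_real, Real.norm_eq_abs, abs_of_pos (Real.exp_pos _)]
  obtain ⟨w, hw⟩ : ∃ w : ℂ, w = (-(Y : ℂ) + y * I) + ((2 * Real.sqrt t * v : ℝ) : ℂ) := ⟨_, rfl⟩
  rw [← hw]
  obtain ⟨s, hs⟩ : ∃ s : ℝ, s = 2 * Real.sqrt t * v := ⟨_, rfl⟩
  have hs0 : 0 ≤ s := by rw [hs]; positivity
  have hwr : w.re = s - Y := by rw [hw, ← hs]; simp; ring
  have hwi : w.im = y := by rw [hw, ← hs]; simp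
  have hsv : v ^ 2 = ℓ * (s ^ 2 / (2 * τ)) := by
    have h1 : s ^ 2 = 4 * t * v ^ 2 := by
      rw [hs, mul_pow, mul_pow, Real.sq_sqrt ht.le]
      ring
    rw [h1, hτd]
    field_simp
    ring
  have h1 := hf.up w
  have h2 : max |w.re| ϑ0 ≤ Y + s ^ 2 / (4 * τ) := by
    have h0 : 0 ≤ s ^ 2 / (4 * τ) := by positivity
    apply max_le _ (by linarith)
    rw [hwr, abs_le]
    constructor
    · linarith
    · have h3 : s ≤ τ + s ^ 2 / (4 * τ) := by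
        have e1 : τ + s ^ 2 / (4 * τ) - s = (s - 2 * τ) ^ 2 / (4 * τ) := by
          field_simp
          ring
        have : 0 ≤ (s - 2 * τ) ^ 2 / (4 * τ) := by positivity
        linarith
      linarith
  have h3 : ‖w‖ ^ 2 ≤ 2 * s ^ 2 + 2 * Y ^ 2 + R1 ^ 2 := by
    rw [← Complex.normSq_eq_norm_sq, Complex.normSq_apply, hwr, hwi]
    have h4 : y * y ≤ R1 ^ 2 := by
      rw [← sq, ← sq_abs]
      exact pow_le_pow_left₀ (abs_nonneg _) hy 2
    nlinarith [sq_nonneg (s + Y)]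
  have h5 : K * (2 * s ^ 2) ≤ v ^ 2 / 4 := by
    have e1 : s ^ 2 / (2 * X) ≤ s ^ 2 / (2 * τ) :=
      div_le_div_of_nonneg_left (by positivity) (by positivity) (by linarith)
    have e2 : ℓ * (s ^ 2 / (2 * X)) ≤ v ^ 2 := by
      rw [hsv]; exact mul_le_mul_of_nonneg_left e1 hℓ0.le
    have e3 : 16 * K * X * (s ^ 2 / (2 * X)) ≤ ℓ * (s ^ 2 / (2 * X)) :=
      mul_le_mul_of_nonneg_right hℓK (by positivity)
    have e4 : 16 * K * X * (s ^ 2 / (2 * X)) = 8 * K * s ^ 2 := by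
      field_simp
      ring
    rw [e4] at e3
    linarith
  have h9 : 1 / ℓ * v ^ 2 ≤ v ^ 2 / 4 := by
    rw [div_mul_eq_mul_div, one_mul]
    exact div_le_div_of_nonneg_left (sq_nonneg _) (by norm_num) hℓ4
  calc Real.exp (-v ^ 2) * ‖f w‖
      ≤ Real.exp (-v ^ 2) * (G * Real.exp (ℓ * max |w.re| ϑ0 + K * (1 + ‖w‖ ^ 2))) :=
        mul_le_mul_of_nonneg_left h1 (Real.exp_pos _).le
    _ = G * Real.exp (-v ^ 2 + (ℓ * max |w.re| ϑ0 + K * (1 + ‖w‖ ^ 2))) := by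
        rw [mul_left_comm, ← Real.exp_add]
    _ ≤ G * Real.exp ((ℓ * Y + C) + (-(1 / ℓ) * v ^ 2)) := by
        apply mul_le_mul_of_nonneg_left _ hG.le
        apply Real.exp_le_exp.2
        have g1 : K * (1 + ‖w‖ ^ 2) ≤ K * (2 * s ^ 2) + C := by
          have := mul_le_mul_of_nonneg_left h3 (by linarith : (0 : ℝ) ≤ K)
          rw [hC]
          linarith
        have g2 := mul_le_mul_of_nonneg_left h2 hℓ0.le
        have g3 : ℓ * (Y + s ^ 2 / (4 * τ)) = ℓ * Y + v ^ 2 / 2 := by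
          rw [hsv]; field_simp; ring
        rw [g3] at g2
        linarith
    _ = G * Real.exp (ℓ * Y + C) * Real.exp (-(1 / ℓ) * v ^ 2) := by rw [Real.exp_add]; ring

end Pool.Agent.J4H1.LH
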